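import Pool.Agent.MP_4d0c5f_nt.NullSet

open Set Filter Topology

namespace Pool.Agent.MP_4d0c5f_nt

/-- a Baire category lemma -/
theorem baire_aux {X ι : Type*} [TopologicalSpace X] [PolishSpace X] [Countable ι] (S : Set X)
    (hS : S.Nonempty) (O : ι → Set X) (hO : ∀ n, IsOpen (O n))
    (hd : ∀ n, ∀ x ∈ S, ∀ U, IsOpen U → x ∈ U → ∃ y ∈ S, y ∈ U ∧ y ∈ O n) :
    ∃ x ∈ closure S, ∀ n, x ∈ O n := by
  have : PolishSpace (closure S) := isClosed_closure.polishSpace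
  have hdense : Dense (⋂ n, (fun x : closure S => (x : X)) ⁻¹' O n) := by
    refine dense_iInter_of_isOpen (fun n => (hO n).preimage continuous_subtype_val) (fun n => ?_)
    rw [dense_iff_inter_open]
    intro V hV hVne
    obtain ⟨U, hU, rfl⟩ := isOpen_induced_iff.mp hV
    obtain ⟨⟨x, hx⟩, hxU⟩ := hVne
    obtain ⟨z, hzU, hzS⟩ := mem_closure_iff.mp hx U hU hxU
    obtain ⟨y, hyS, hyU, hyO⟩ := hd n z hzS U hU hzU
    exact ⟨⟨y, subset_closure hyS⟩, hyU, hyO⟩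
  obtain ⟨x0, hx0⟩ := hS
  have : Nonempty (closure S) := ⟨⟨x0, subset_closure hx0⟩⟩
  obtain ⟨⟨x, hx⟩, hx'⟩ := hdense.nonempty
  exact ⟨x, hx, fun n => mem_iInter.mp hx' n⟩

/-- size of an integer 4-vector -/
def sz (w : ℤ × ℤ × ℤ × ℤ) : ℕ :=
  1 + w.1.natAbs + w.2.1.natAbs + w.2.2.1.natAbs + w.2.2.2.natAbs

lemma sz_cast (w : ℤ × ℤ × ℤ × ℤ) :
    (sz w : ℝ) = 1 + |(w.1 : ℝ)| + |(w.2.1 : ℝ)| + |(w.2.2.1 : ℝ)| + |(w.2.2.2 : ℝ)| := by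
  unfold sz
  push_cast [Nat.cast_natAbs]
  ring

lemma one_le_sz (w : ℤ × ℤ × ℤ × ℤ) : (1 : ℝ) ≤ sz w := by
  rw [sz_cast]
  have := abs_nonneg (w.1 : ℝ)
  have := abs_nonneg (w.2.1 : ℝ)
  have := abs_nonneg (w.2.2.1 : ℝ)
  have := abs_nonneg (w.2.2.2 : ℝ)
  linarith

lemma finite_sz_lt (T : ℕ) : {w : ℤ × ℤ × ℤ × ℤ | sz w < T}.Finite := by
  have h : {w : ℤ × ℤ × ℤ × ℤ | sz w < T} ⊆
      (Icc (-(T : ℤ)) T) ×ˢ ((Icc (-(T : ℤ)) T) ×ˢ ((Icc (-(T : ℤ)) T) ×ˢ (Icc (-(T : ℤ)) T))) := by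
    rintro ⟨a, b, c, d⟩ hw
    have hw' : sz (a, b, c, d) < T := hw
    unfold sz at hw'
    simp only [mem_prod, mem_Icc] at *
    refine ⟨⟨?_, ?_⟩, ⟨?_, ?_⟩, ⟨?_, ?_⟩, ?_, ?_⟩ <;> omega
  exact ((finite_Icc _ _).prod ((finite_Icc _ _).prod
    ((finite_Icc _ _).prod (finite_Icc _ _)))).subset h

/-- the linear form `G (q1 + θ q2) - (p1 + θ p2)` -/
def lf (G θ : ℝ) (w : ℤ × ℤ × ℤ × ℤ) : ℝ :=
  G * (w.1 + θ * w.2.1) - (w.2.2.1 + θ * w.2.2.2)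

lemma lf_sub (G θ θ' : ℝ) (w : ℤ × ℤ × ℤ × ℤ) :
    |lf G θ w - lf G θ' w| ≤ |θ - θ'| * ((|G| + 1) * sz w) := by
  have e : lf G θ w - lf G θ' w = (θ - θ') * (G * w.2.1 - w.2.2.2) := by unfold lf; ring
  rw [e, abs_mul]
  refine mul_le_mul_of_nonneg_left ?_ (abs_nonneg _)
  have h1 : |G * w.2.1 - w.2.2.2| ≤ |G| * |(w.2.1 : ℝ)| + |(w.2.2.2 : ℝ)| := by
    rw [← abs_mul]; exact abs_sub _ _
  rw [sz_cast]
  have := abs_nonneg (w.1 : ℝ)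
  have := abs_nonneg (w.2.1 : ℝ)
  have := abs_nonneg (w.2.2.1 : ℝ)
  have := abs_nonneg (w.2.2.2 : ℝ)
  have := abs_nonneg G
  nlinarith

/-- transformed vector -/
def tw (Q P1 P2 : ℤ) (w : ℤ × ℤ × ℤ × ℤ) : ℤ × ℤ × ℤ × ℤ :=
  (-(w.2.2.1 * P2 - w.2.2.2 * P1), w.1 * P2 - w.2.1 * P1, -(w.2.2.2 * Q), w.2.1 * Q)

lemma tw_ne_zero {Q P1 P2 : ℤ} (hQ : Q ≠ 0) (hP2 : P2 ≠ 0) {w : ℤ × ℤ × ℤ × ℤ} (hw : w ≠ 0) :
    tw Q P1 P2 w ≠ 0 := by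
  obtain ⟨q1, q2, p1, p2⟩ := w
  intro h
  simp only [tw, Prod.mk_eq_zero] at h
  obtain ⟨h1, h2, h3, h4⟩ := h
  have hq2 : q2 = 0 := by
    rcases mul_eq_zero.mp h4 with h | h
    · exact h
    · exact absurd h hQ
  have hp2 : p2 = 0 := by
    rcases mul_eq_zero.mp (neg_eq_zero.mp h3) with h | h
    · exact h
    · exact absurd h hQ
  subst hq2 hp2
  simp only [zero_mul, sub_zero, neg_eq_zero] at h1 h2
  have hq1 : q1 = 0 := (mul_eq_zero.mp h2).resolve_right hP2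
  have hp1 : p1 = 0 := (mul_eq_zero.mp h1).resolve_right hP2
  apply hw
  simp [hq1, hp1]

lemma lf_eq_comb {G H θ : ℝ} {Q P1 P2 : ℤ} (hP2 : P2 ≠ 0) (hθ : θ = (Q * H - P1) / P2)
    (w : ℤ × ℤ × ℤ × ℤ) : lf G θ w * P2 = comb G H (tw Q P1 P2 w) := by
  have hP2' : (P2 : ℝ) ≠ 0 := by exact_mod_cast hP2
  have e : θ * P2 = Q * H - P1 := by rw [hθ]; field_simp
  unfold lf comb tw
  push_cast
  linear_combination (G * w.2.1 - w.2.2.2) * e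

lemma sz_tw_le {Q P1 P2 : ℤ} {B : ℝ} (hB : |(P1 : ℝ)| + |(P2 : ℝ)| + |(Q : ℝ)| ≤ B) (hB1 : 1 ≤ B)
    (w : ℤ × ℤ × ℤ × ℤ) : (sz (tw Q P1 P2 w) : ℝ) ≤ B * sz w := by
  rw [sz_cast, sz_cast]
  obtain ⟨q1, q2, p1, p2⟩ := w
  simp only [tw]
  push_cast
  have a1 : |(-((p1 : ℝ) * P2 - p2 * P1))| ≤ |(p1 : ℝ)| * |(P2 : ℝ)| + |(p2 : ℝ)| * |(P1 : ℝ)| := by
    rw [abs_neg, ← abs_mul, ← abs_mul]; exact abs_sub _ _
  have a2 : |((q1 : ℝ) * P2 - q2 * P1)| ≤ |(q1 : ℝ)| * |(P2 : ℝ)| + |(q2 : ℝ)| * |(P1 : ℝ)| := by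
    rw [← abs_mul, ← abs_mul]; exact abs_sub _ _
  have a3 : |(-((p2 : ℝ) * Q))| = |(p2 : ℝ)| * |(Q : ℝ)| := by rw [abs_neg, abs_mul]
  have a4 : |((q2 : ℝ) * Q)| = |(q2 : ℝ)| * |(Q : ℝ)| := by rw [abs_mul]
  rw [a3, a4]
  have n1 := abs_nonneg (q1 : ℝ)
  have n2 := abs_nonneg (q2 : ℝ)
  have n3 := abs_nonneg (p1 : ℝ)
  have n4 := abs_nonneg (p2 : ℝ)
  have m1 := abs_nonneg (P1 : ℝ)
  have m2 := abs_nonneg (P2 : ℝ)
  have m3 := abs_nonneg (Q : ℝ)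
  have c1 : |(q1 : ℝ)| * |(P2 : ℝ)| ≤ |(q1 : ℝ)| * B :=
    mul_le_mul_of_nonneg_left (by linarith) n1
  have c2 : |(p1 : ℝ)| * |(P2 : ℝ)| ≤ |(p1 : ℝ)| * B :=
    mul_le_mul_of_nonneg_left (by linarith) n3
  have c3 : |(q2 : ℝ)| * (|(P1 : ℝ)| + |(Q : ℝ)|) ≤ |(q2 : ℝ)| * B :=
    mul_le_mul_of_nonneg_left (by linarith) n2
  have c4 : |(p2 : ℝ)| * (|(P1 : ℝ)| + |(Q : ℝ)|) ≤ |(p2 : ℝ)| * B :=
    mul_le_mul_of_nonneg_left (by linarith) n4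
  nlinarith

/-- lower bound for the linear form at a special point -/
lemma lf_lower {G H θ c : ℝ} (hc : 0 < c)
    (hdio : ∀ w : ℤ × ℤ × ℤ × ℤ, w ≠ 0 → c / (sz w : ℝ) ^ 24 ≤ |comb G H w|)
    {Q P1 P2 : ℤ} (hQ : Q ≠ 0) (hP2 : P2 ≠ 0) (hθ : θ = (Q * H - P1) / P2) {B : ℝ}
    (hB : |(P1 : ℝ)| + |(P2 : ℝ)| + |(Q : ℝ)| ≤ B) (hB1 : 1 ≤ B)
    {w : ℤ × ℤ × ℤ × ℤ} (hw : w ≠ 0) :
    c / (B ^ 25 * (sz w : ℝ) ^ 24) ≤ |lf G θ w| := by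
  have h1 := hdio _ (tw_ne_zero (P1 := P1) hQ hP2 hw)
  rw [← lf_eq_comb hP2 hθ w, abs_mul] at h1
  have h2 := sz_tw_le hB hB1 w
  have hP2' : 0 < |(P2 : ℝ)| := abs_pos.mpr (by exact_mod_cast hP2)
  have hP2B : |(P2 : ℝ)| ≤ B := by
    have := abs_nonneg (P1 : ℝ)
    have := abs_nonneg (Q : ℝ)
    linarith
  have hs1 := one_le_sz w
  have hs2 := one_le_sz (tw Q P1 P2 w)
  have hBpos : 0 < B := by linarith
  have h3 : c / (B * sz w) ^ 24 ≤ c / (sz (tw Q P1 P2 w) : ℝ) ^ 24 := by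
    apply div_le_div_of_nonneg_left hc.le (by positivity)
    exact pow_le_pow_left₀ (by positivity) h2 24
  have h4 : c / (B * sz w) ^ 24 ≤ |lf G θ w| * B :=
    h3.trans (h1.trans (mul_le_mul_of_nonneg_left hP2B (abs_nonneg _)))
  rw [div_le_iff₀ (by positivity)] at h4 ⊢
  calc c ≤ |lf G θ w| * B * (B * sz w) ^ 24 := h4
    _ = |lf G θ w| * (B ^ 25 * (sz w : ℝ) ^ 24) := by ring

/-- the exponent used in the construction -/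
abbrev NN : ℕ := 675

/-- persistence of the Diophantine condition under small perturbations -/
lemma persist {G θ0 c0 C c' : ℝ} (hc0 : 0 < c0) (hC : 0 ≤ C) (hc' : 0 < c')
    (h0 : ∀ w : ℤ × ℤ × ℤ × ℤ, w ≠ 0 → c0 / (sz w : ℝ) ^ 24 ≤ |lf G θ0 w|) {T : ℕ}
    (hT : ∀ w : ℤ × ℤ × ℤ × ℤ, w ≠ 0 → T ≤ sz w → 1 / (sz w : ℝ) ^ NN < |lf G θ0 w|) :
    ∀ᶠ n : ℕ in atTop, ∀ θ : ℝ, |θ - θ0| ≤ C / n →
      (∀ w : ℤ × ℤ × ℤ × ℤ, w ≠ 0 → c' / ((n : ℝ) ^ 25 * (sz w : ℝ) ^ 24) ≤ |lf G θ w|) →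
      ∀ w : ℤ × ℤ × ℤ × ℤ, w ≠ 0 → T ≤ sz w → 1 / (sz w : ℝ) ^ NN < |lf G θ w| := by
  set C4 : ℝ := C * (|G| + 1) with hC4
  have hC4n : 0 ≤ C4 := by positivity
  obtain ⟨Ts, hTs⟩ := exists_nat_gt ((C4 + 1) / c0)
  have hTs' : C4 + 1 < Ts * c0 := by rwa [div_lt_iff₀ hc0] at hTs
  obtain ⟨m, hm⟩ := exists_nat_gt (1 / c')
  -- finite part
  have hfin : ∀ᶠ n : ℕ in atTop, ∀ w ∈ {w : ℤ × ℤ × ℤ × ℤ | sz w < Ts},
      w ≠ 0 → T ≤ sz w → C4 * sz w / n < |lf G θ0 w| - 1 / (sz w : ℝ) ^ NN := by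
    rw [(finite_sz_lt Ts).eventually_all]
    intro w _
    by_cases hw : w ≠ 0 ∧ T ≤ sz w
    · have hpos : 0 < |lf G θ0 w| - 1 / (sz w : ℝ) ^ NN := sub_pos.mpr (hT w hw.1 hw.2)
      have hlim : Tendsto (fun n : ℕ => C4 * sz w / (n : ℝ)) atTop (𝓝 0) :=
        tendsto_const_div_atTop_nhds_zero_nat _
      filter_upwards [hlim.eventually (gt_mem_nhds hpos)] with n hn _ _
      exact hn
    · exact Filter.Eventually.of_forall fun n h1 h2 => absurd ⟨h1, h2⟩ hw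
  filter_upwards [hfin, eventually_ge_atTop ((m + 1) ^ 26), eventually_gt_atTop 0]
    with n hn1 hn2 hn3 θ hθ hlow w hw hTw
  have hn0 : (0 : ℝ) < n := by exact_mod_cast hn3
  have hz1 := one_le_sz w
  have hz0 : (0 : ℝ) < sz w := by linarith
  have hdiff : |lf G θ0 w| - C4 * sz w / n ≤ |lf G θ w| := by
    have h1 := lf_sub G θ θ0 w
    have h2 : |θ - θ0| * ((|G| + 1) * sz w) ≤ C / n * ((|G| + 1) * sz w) :=
      mul_le_mul_of_nonneg_right hθ (by positivity)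
    have h3 : C / n * ((|G| + 1) * sz w) = C4 * sz w / n := by rw [hC4]; ring
    have h4 : |lf G θ0 w| ≤ |lf G θ w| + |lf G θ w - lf G θ0 w| := by
      have := abs_sub (lf G θ w) (lf G θ w - lf G θ0 w)
      rwa [sub_sub_cancel] at this
    linarith
  by_cases hcase : (sz w : ℝ) ^ 26 ≤ n
  · by_cases hcase2 : sz w < Ts
    · have := hn1 w hcase2 hw hTw
      linarith
    · push Not at hcase2
      have hTsz : (Ts : ℝ) ≤ sz w := by exact_mod_cast hcase2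
      have h1 := h0 w hw
      have h2 : C4 * sz w / n ≤ C4 / (sz w : ℝ) ^ 25 := by
        rw [div_le_div_iff₀ hn0 (by positivity)]
        calc C4 * sz w * (sz w : ℝ) ^ 25 = C4 * (sz w : ℝ) ^ 26 := by ring
          _ ≤ C4 * n := mul_le_mul_of_nonneg_left hcase hC4n
      have h3 : 1 / (sz w : ℝ) ^ 25 < c0 / (sz w : ℝ) ^ 24 - C4 / (sz w : ℝ) ^ 25 := by
        have e : c0 / (sz w : ℝ) ^ 24 - C4 / (sz w : ℝ) ^ 25 =
            (c0 * sz w - C4) / (sz w : ℝ) ^ 25 := by field_simp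
        rw [e]
        apply div_lt_div_of_pos_right _ (by positivity)
        have : (Ts : ℝ) * c0 ≤ sz w * c0 := mul_le_mul_of_nonneg_right hTsz hc0.le
        linarith
      have h4 : 1 / (sz w : ℝ) ^ NN ≤ 1 / (sz w : ℝ) ^ 25 := by
        apply one_div_le_one_div_of_le (by positivity)
        exact pow_le_pow_right₀ hz1 (by norm_num)
      linarith
  · push Not at hcase
    have h1 := hlow w hw
    have hmz : (m : ℝ) + 1 ≤ sz w := by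
      by_contra hcon
      push Not at hcon
      have h2 : (sz w : ℝ) ^ 26 < ((m : ℝ) + 1) ^ 26 :=
        pow_lt_pow_left₀ hcon hz0.le (by norm_num)
      have h3 : (((m + 1) ^ 26 : ℕ) : ℝ) ≤ n := by exact_mod_cast hn2
      push_cast at h3
      linarith
    have hcz : 1 < c' * sz w := by
      rw [div_lt_iff₀ hc'] at hm
      nlinarith
    have h5 : c' / (((sz w : ℝ) ^ 26) ^ 25 * (sz w : ℝ) ^ 24) ≤
        c' / ((n : ℝ) ^ 25 * (sz w : ℝ) ^ 24) := by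
      apply div_le_div_of_nonneg_left hc'.le (by positivity)
      apply mul_le_mul_of_nonneg_right _ (by positivity)
      exact pow_le_pow_left₀ hn0.le hcase.le 25
    have h6 : 1 / (sz w : ℝ) ^ NN < c' / (((sz w : ℝ) ^ 26) ^ 25 * (sz w : ℝ) ^ 24) := by
      rw [div_lt_div_iff₀ (by positivity) (by positivity), one_mul]
      calc ((sz w : ℝ) ^ 26) ^ 25 * (sz w : ℝ) ^ 24 = 1 * (sz w : ℝ) ^ 674 := by
            rw [← pow_mul, ← pow_add, one_mul]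
        _ < (c' * sz w) * (sz w : ℝ) ^ 674 := mul_lt_mul_of_pos_right hcz (by positivity)
        _ = c' * (sz w : ℝ) ^ NN := by
            rw [show NN = 674 + 1 from rfl, pow_succ]; ring
    linarith

section main

variable (G H H0 : ℕ → ℝ)

/-- special points -/
def Special (x : ℝ × ℝ × (ℕ → ℕ)) : Prop :=
  ∃ (l : ℕ) (Q P1 P2 : ℤ), Q ≠ 0 ∧ P2 ≠ 0 ∧ x.1 = (Q * H l - P1) / P2 ∧
    Q * ((H l - H0 l) * x.2.1) = P2

/-- the set of nice points -/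
def Nice : Set (ℝ × ℝ × (ℕ → ℕ)) :=
  {x | Special H H0 x ∧ ∀ (k : ℕ) (w : ℤ × ℤ × ℤ × ℤ), w ≠ 0 → x.2.2 k ≤ sz w →
    1 / (sz w : ℝ) ^ NN < |lf (G k) x.1 w|}

variable {G H H0}

lemma threshold {c g θ : ℝ} (hc : 0 < c)
    (h : ∀ w : ℤ × ℤ × ℤ × ℤ, w ≠ 0 → c / (sz w : ℝ) ^ 24 ≤ |lf g θ w|) :
    ∃ T : ℕ, ∀ w : ℤ × ℤ × ℤ × ℤ, w ≠ 0 → T ≤ sz w → 1 / (sz w : ℝ) ^ NN < |lf g θ w| := by
  obtain ⟨T, hT⟩ := exists_nat_gt (1 / c)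
  refine ⟨T, fun w hw hTw => ?_⟩
  have hz1 := one_le_sz w
  have hz0 : (0 : ℝ) < sz w := by linarith
  have hTw' : (T : ℝ) ≤ sz w := by exact_mod_cast hTw
  have h1 : 1 < c * sz w := by
    rw [div_lt_iff₀ hc] at hT
    nlinarith
  refine lt_of_lt_of_le ?_ (h w hw)
  have h2 : 1 / (sz w : ℝ) ^ NN ≤ 1 / (sz w : ℝ) ^ 25 := by
    apply one_div_le_one_div_of_le (by positivity)
    exact pow_le_pow_right₀ hz1 (by norm_num)
  refine lt_of_le_of_lt h2 ?_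
  rw [div_lt_div_iff₀ (by positivity) (by positivity), one_mul]
  calc (sz w : ℝ) ^ 24 = 1 * (sz w : ℝ) ^ 24 := (one_mul _).symm
    _ < (c * sz w) * (sz w : ℝ) ^ 24 := mul_lt_mul_of_pos_right h1 (by positivity)
    _ = c * (sz w : ℝ) ^ 25 := by ring

lemma special_lower (hdio : ∀ k l, ∃ c : ℝ, 0 < c ∧ ∀ w : ℤ × ℤ × ℤ × ℤ, w ≠ 0 →
      c / (sz w : ℝ) ^ 24 ≤ |comb (G k) (H l) w|)
    {x : ℝ × ℝ × (ℕ → ℕ)} (hx : Special H H0 x) (k : ℕ) :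
    ∃ c : ℝ, 0 < c ∧ ∀ w : ℤ × ℤ × ℤ × ℤ, w ≠ 0 → c / (sz w : ℝ) ^ 24 ≤ |lf (G k) x.1 w| := by
  obtain ⟨l, Q, P1, P2, hQ, hP2, hθ, -⟩ := hx
  obtain ⟨c, hc, hc'⟩ := hdio k l
  set B : ℝ := |(P1 : ℝ)| + |(P2 : ℝ)| + |(Q : ℝ)| + 1 with hB
  have n1 := abs_nonneg (P1 : ℝ)
  have n2 := abs_nonneg (P2 : ℝ)
  have n3 := abs_nonneg (Q : ℝ)
  have hB1 : 1 ≤ B := by linarith
  have hB0 : 0 < B := by linarith
  refine ⟨c / B ^ 25, by positivity, fun w hw => ?_⟩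
  have h1 := lf_lower hc hc' hQ hP2 hθ (B := B) (by linarith) hB1 hw
  rwa [div_div]

lemma nice_of_special (hdio : ∀ k l, ∃ c : ℝ, 0 < c ∧ ∀ w : ℤ × ℤ × ℤ × ℤ, w ≠ 0 →
      c / (sz w : ℝ) ^ 24 ≤ |comb (G k) (H l) w|)
    {θ s : ℝ} {T : ℕ → ℕ} {K : ℕ} (hx : Special H H0 (θ, s, T))
    (hT : ∀ k < K, ∀ w : ℤ × ℤ × ℤ × ℤ, w ≠ 0 → T k ≤ sz w →
      1 / (sz w : ℝ) ^ NN < |lf (G k) θ w|) :
    ∃ T' : ℕ → ℕ, (∀ k < K, T' k = T k) ∧ (θ, s, T') ∈ Nice G H H0 := by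
  have h1 : ∀ k, ∃ T : ℕ, ∀ w : ℤ × ℤ × ℤ × ℤ, w ≠ 0 → T ≤ sz w →
      1 / (sz w : ℝ) ^ NN < |lf (G k) θ w| := by
    intro k
    obtain ⟨c, hc, hc'⟩ := special_lower hdio hx k
    exact threshold hc hc'
  choose U hU using h1
  refine ⟨fun k => if k < K then T k else U k, fun k hk => by simp [hk], ?_, ?_⟩
  · obtain ⟨l, Q, P1, P2, a, b, c, d⟩ := hx
    exact ⟨l, Q, P1, P2, a, b, c, d⟩
  · intro k w hw hle
    by_cases hk : k < K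
    · simp only [hk, if_true] at hle
      exact hT k hk w hw hle
    · simp only [hk, if_false] at hle
      exact hU k w hw hle

lemma nice_nonempty (hdio : ∀ k l, ∃ c : ℝ, 0 < c ∧ ∀ w : ℤ × ℤ × ℤ × ℤ, w ≠ 0 →
      c / (sz w : ℝ) ^ 24 ≤ |comb (G k) (H l) w|) (hH : ∀ l, H l ≠ H0 l) :
    (Nice G H H0).Nonempty := by
  have hsub : H 0 - H0 0 ≠ 0 := sub_ne_zero.mpr (hH 0)
  obtain ⟨T', -, hT'⟩ := nice_of_special (G := G) (H := H) (H0 := H0) hdio (θ := H 0)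
    (s := 1 / (H 0 - H0 0)) (T := fun _ => 0) (K := 0)
    ⟨0, 1, 0, 1, one_ne_zero, one_ne_zero, by simp, by
      push_cast
      field_simp⟩
    (fun k hk => absurd hk (Nat.not_lt_zero k))
  exact ⟨_, hT'⟩

/-- the step lemma -/
lemma step (hdio : ∀ k l, ∃ c : ℝ, 0 < c ∧ ∀ w : ℤ × ℤ × ℤ × ℤ, w ≠ 0 →
      c / (sz w : ℝ) ^ 24 ≤ |comb (G k) (H l) w|) (hH : ∀ l, H l ≠ H0 l)
    {x : ℝ × ℝ × (ℕ → ℕ)} (hx : x ∈ Nice G H H0) (l : ℕ) (e ε : ℝ) (hε : 0 < ε) (K : ℕ) :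
    ∃ y ∈ Nice G H H0, |y.1 - x.1| < ε ∧ |y.2.1 - x.2.1| < ε ∧ (∀ k < K, y.2.2 k = x.2.2 k) ∧
      (∃ (Q : ℕ) (P1 P2 : ℤ), 2 ≤ Q ∧ Q * (H l - y.1 * ((H l - H0 l) * y.2.1)) = P1 ∧
        Q * ((H l - H0 l) * y.2.1) = P2) ∧ y.1 ≠ e := by
  obtain ⟨hsp, hnice⟩ := hx
  obtain ⟨θ0, s0, T⟩ := x
  simp only at hnice
  have hs0 : s0 ≠ 0 := by
    obtain ⟨l', Q', P1', P2', -, hP2', -, h4⟩ := hsp
    rintro rfl
    simp only [mul_zero] at h4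
    exact hP2' (by exact_mod_cast h4.symm)
  set Δ : ℝ := H l - H0 l with hΔ
  have hΔ0 : Δ ≠ 0 := sub_ne_zero.mpr (hH l)
  set σ : ℝ := Δ * s0 with hσ
  have hσ0 : σ ≠ 0 := mul_ne_zero hΔ0 hs0
  set r : ℝ := H l - θ0 * σ with hr
  have hσpos : 0 < |σ| := abs_pos.mpr hσ0
  -- constants
  set C : ℝ := 2 * (1 + |θ0|) / |σ| with hC
  have hCn : 0 ≤ C := by positivity
  set C1 : ℝ := |r| + |σ| + 5 with hC1
  have hC1p : 1 ≤ C1 := by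
    have := abs_nonneg r
    have := abs_nonneg σ
    linarith
  choose c hc hcw using fun k => hdio k l
  choose c0 hc0 hc0w using fun k => special_lower hdio hsp k
  -- candidates
  set P2 : ℕ → ℤ := fun n => ⌊σ * n⌋ with hP2
  set P1 : ℕ → ℤ → ℤ := fun n δ => ⌊r * n⌋ + δ with hP1
  set th : ℕ → ℤ → ℝ := fun n δ => (n * H l - P1 n δ) / P2 n with hth
  set ss : ℕ → ℝ := fun n => P2 n / (n * Δ) with hss
  have hper : ∀ᶠ n : ℕ in atTop, ∀ k < K, ∀ θ : ℝ, |θ - θ0| ≤ C / n →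
      (∀ w : ℤ × ℤ × ℤ × ℤ, w ≠ 0 →
        c k / C1 ^ 25 / ((n : ℝ) ^ 25 * (sz w : ℝ) ^ 24) ≤ |lf (G k) θ w|) →
      ∀ w : ℤ × ℤ × ℤ × ℤ, w ≠ 0 → T k ≤ sz w → 1 / (sz w : ℝ) ^ NN < |lf (G k) θ w| := by
    have := (finite_lt_nat K).eventually_all (l := atTop) (p := fun k (n : ℕ) =>
      ∀ θ : ℝ, |θ - θ0| ≤ C / n →
      (∀ w : ℤ × ℤ × ℤ × ℤ, w ≠ 0 →
        c k / C1 ^ 25 / ((n : ℝ) ^ 25 * (sz w : ℝ) ^ 24) ≤ |lf (G k) θ w|) →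
      ∀ w : ℤ × ℤ × ℤ × ℤ, w ≠ 0 → T k ≤ sz w → 1 / (sz w : ℝ) ^ NN < |lf (G k) θ w|)
    refine this.mpr (fun k _ => ?_)
    exact persist (hc0 k) hCn (div_pos (hc k) (by positivity)) (hc0w k)
      (fun w hw hTw => hnice k w hw hTw)
  have hlim1 : ∀ᶠ n : ℕ in atTop, C / n < ε :=
    (tendsto_const_div_atTop_nhds_zero_nat C).eventually (gt_mem_nhds hε)
  have hlim2 : ∀ᶠ n : ℕ in atTop, (1 / |Δ|) / n < ε :=
    (tendsto_const_div_atTop_nhds_zero_nat (1 / |Δ|)).eventually (gt_mem_nhds hε)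
  obtain ⟨n1, hn1⟩ := exists_nat_gt (2 / |σ|)
  obtain ⟨n, hn, hnε1, hnε2, hn2, hnn1⟩ := (hper.and (hlim1.and (hlim2.and
    ((eventually_ge_atTop 2).and (eventually_ge_atTop n1))))).exists
  have hn0 : (0 : ℝ) < n := by
    have : (2 : ℝ) ≤ n := by exact_mod_cast hn2
    linarith
  have hn1' : (1 : ℝ) ≤ n := by
    have : (2 : ℝ) ≤ n := by exact_mod_cast hn2
    linarith
  have hσn : 2 < |σ| * n := by
    have h1 : (n1 : ℝ) ≤ n := by exact_mod_cast hnn1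
    rw [div_lt_iff₀ hσpos] at hn1
    nlinarith
  -- P2 facts
  have hP2a : |(P2 n : ℝ) - σ * n| ≤ 1 := by
    rw [abs_le]
    have h1 := Int.floor_le (σ * n)
    have h2 := Int.lt_floor_add_one (σ * n)
    simp only [hP2]
    constructor <;> linarith
  have hP2b : |σ| * n / 2 ≤ |(P2 n : ℝ)| := by
    have h1 : |σ * n| ≤ |(P2 n : ℝ)| + |(P2 n : ℝ) - σ * n| := by
      have := abs_sub (P2 n : ℝ) ((P2 n : ℝ) - σ * n)
      rwa [sub_sub_cancel] at this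
    rw [abs_mul, abs_of_pos hn0] at h1
    linarith
  have hP2pos : 0 < |(P2 n : ℝ)| := by linarith
  have hP2ne' : (P2 n : ℝ) ≠ 0 := abs_pos.mp hP2pos
  have hP2ne : P2 n ≠ 0 := by exact_mod_cast hP2ne'
  have hP2c : |(P2 n : ℝ)| ≤ (|σ| + 1) * n := by
    have h1 : |(P2 n : ℝ)| ≤ |(P2 n : ℝ) - σ * n| + |σ * n| := by
      have := abs_add_le ((P2 n : ℝ) - σ * n) (σ * n)
      rwa [sub_add_cancel] at this
    rw [abs_mul, abs_of_pos hn0] at h1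
    nlinarith
  have hP1a : ∀ δ : ℤ, δ = 0 ∨ δ = 1 → |r * n - P1 n δ| ≤ 1 := by
    intro δ hδ
    have h1 := Int.floor_le (r * n)
    have h2 := Int.lt_floor_add_one (r * n)
    rw [abs_le]
    rcases hδ with rfl | rfl <;> simp only [hP1] <;> push_cast <;> constructor <;> linarith
  have hP1b : ∀ δ : ℤ, δ = 0 ∨ δ = 1 → |(P1 n δ : ℝ)| ≤ (|r| + 1) * n := by
    intro δ hδ
    have h1 : |(P1 n δ : ℝ)| ≤ |r * n| + |r * n - P1 n δ| := by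
      have := abs_sub (r * n) (r * n - P1 n δ)
      rwa [sub_sub_cancel] at this
    have h2 := hP1a δ hδ
    rw [abs_mul, abs_of_pos hn0] at h1
    nlinarith
  have hthclose : ∀ δ : ℤ, δ = 0 ∨ δ = 1 → |th n δ - θ0| ≤ C / n := by
    intro δ hδ
    have e1 : th n δ - θ0 = ((r * n - P1 n δ) + θ0 * (σ * n - P2 n)) / P2 n := by
      simp only [hth]
      rw [eq_div_iff hP2ne', sub_mul, div_mul_cancel₀ _ hP2ne', hr]
      ring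
    rw [e1, abs_div, div_le_div_iff₀ hP2pos hn0]
    have h1 : |(r * n - P1 n δ) + θ0 * (σ * n - P2 n)| ≤ 1 + |θ0| := by
      refine (abs_add_le _ _).trans ?_
      rw [abs_mul, abs_sub_comm (σ * n)]
      have := mul_le_mul_of_nonneg_left hP2a (abs_nonneg θ0)
      have := hP1a δ hδ
      linarith
    have h2 : |(r * n - P1 n δ) + θ0 * (σ * n - P2 n)| * n ≤ (1 + |θ0|) * n :=
      mul_le_mul_of_nonneg_right h1 hn0.le
    have h3 : (1 + |θ0|) * n = C * (|σ| * n / 2) := by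
      rw [hC]; field_simp
    have h4 : C * (|σ| * n / 2) ≤ C * |(P2 n : ℝ)| := mul_le_mul_of_nonneg_left hP2b hCn
    linarith
  have hssclose : |ss n - s0| ≤ (1 / |Δ|) / n := by
    have e1 : ss n - s0 = (P2 n - σ * n) / (n * Δ) := by
      simp only [hss]
      rw [hσ]
      field_simp
    rw [e1, abs_div, abs_mul, abs_of_pos hn0]
    have hΔp : 0 < |Δ| := abs_pos.mpr hΔ0
    rw [div_div, div_le_div_iff₀ (by positivity) (by positivity)]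
    nlinarith [mul_pos hn0 hΔp]
  -- choose δ
  obtain ⟨δ, hδ, hδe⟩ : ∃ δ : ℤ, (δ = 0 ∨ δ = 1) ∧ th n δ ≠ e := by
    by_cases h0 : th n 0 = e
    · refine ⟨1, Or.inr rfl, fun h1 => ?_⟩
      have h2 : th n 0 = th n 1 := by rw [h0, h1]
      simp only [hth] at h2
      rw [div_left_inj' hP2ne'] at h2
      simp only [hP1] at h2
      push_cast at h2
      linarith
    · exact ⟨0, Or.inl rfl, h0⟩
  have hnz : (n : ℤ) ≠ 0 := by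
    have : n ≠ 0 := by omega
    exact_mod_cast this
  have hspec : Special H H0 (th n δ, ss n, T) := by
    refine ⟨l, n, P1 n δ, P2 n, hnz, hP2ne, ?_, ?_⟩
    · simp only [hth]; push_cast; rfl
    · simp only [hss]
      rw [← hΔ]
      push_cast
      field_simp
  have hBle : |(P1 n δ : ℝ)| + |(P2 n : ℝ)| + |((n : ℤ) : ℝ)| ≤ C1 * n := by
    push_cast
    rw [abs_of_pos hn0]
    have := hP1b δ hδ
    nlinarith
  have hB1 : 1 ≤ C1 * n := by nlinarith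
  have hlow : ∀ k, ∀ w : ℤ × ℤ × ℤ × ℤ, w ≠ 0 →
      c k / C1 ^ 25 / ((n : ℝ) ^ 25 * (sz w : ℝ) ^ 24) ≤ |lf (G k) (th n δ) w| := by
    intro k w hw
    have h1 := lf_lower (hc k) (hcw k) hnz hP2ne (θ := th n δ) (P1 := P1 n δ)
      (by simp only [hth]; push_cast; rfl) hBle hB1 hw
    refine le_trans (le_of_eq ?_) h1
    rw [mul_pow, div_div]
    ring_nf
  obtain ⟨T', hT'1, hT'2⟩ := nice_of_special (G := G) hdio hspec (K := K)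
    (fun k hk w hw hTw => hn k hk (th n δ) (hthclose δ hδ) (hlow k) w hw hTw)
  refine ⟨_, hT'2, lt_of_le_of_lt (hthclose δ hδ) hnε1, lt_of_le_of_lt hssclose hnε2, hT'1,
    ⟨n, P1 n δ, P2 n, hn2, ?_, ?_⟩, hδe⟩
  · have e2 : Δ * ss n = P2 n / n := by
      simp only [hss]; field_simp
    rw [e2]
    simp only [hth]
    field_simp
    ring
  · have e2 : Δ * ss n = P2 n / n := by
      simp only [hss]; field_simp
    rw [e2]
    field_simp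

end main

end Pool.Agent.MP_4d0c5f_nt
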