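import Mathlib

namespace Pool.Agent.MP_4d0c5f_nt

/-- A real `n × n` matrix `A` is a Liouville matrix if `A q ≠ p` for all integer vectors
`(q, p) ≠ 0`, and for every `N > 0` there are integer vectors `p`, `q` with `‖q‖ > 1` and
`‖A q - p‖ < ‖q‖ ^ (-N)` (supremum norms). -/
def IsLiouvilleMatrix {n : ℕ} (A : Matrix (Fin n) (Fin n) ℝ) : Prop :=
  (∀ q p : Fin n → ℤ, (q ≠ 0 ∨ p ≠ 0) →
      A.mulVec (fun i => (q i : ℝ)) ≠ fun i => (p i : ℝ)) ∧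
  ∀ N : ℝ, 0 < N → ∃ p q : Fin n → ℤ, 1 < ‖q‖ ∧
    ‖A.mulVec (fun i => (q i : ℝ)) - fun i => (p i : ℝ)‖ < ‖q‖ ^ (-N)

/-- The `j`-th Taylor coefficient of `f` at `0`. -/
noncomputable def taylorCoeff (f : ℝ → ℝ) (j : ℕ) : ℝ := iteratedDeriv j f 0 / (j.factorial : ℝ)

/-- The matrix extension of `f` is defined at `A`: the Taylor series of `f` at `0` converges
at `A`. -/
def ExtDefined {n : ℕ} (f : ℝ → ℝ) (A : Matrix (Fin n) (Fin n) ℝ) : Prop :=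
  Summable fun j : ℕ => taylorCoeff f j • A ^ j

/-- The matrix extension of `f` evaluated at `A`. -/
noncomputable def matExt {n : ℕ} (f : ℝ → ℝ) (A : Matrix (Fin n) (Fin n) ℝ) :
    Matrix (Fin n) (Fin n) ℝ :=
  ∑' j : ℕ, taylorCoeff f j • A ^ j

end Pool.Agent.MP_4d0c5f_nt
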