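import Pool.Agent.MP_4d0c5f_nt.Defs

/-!
# The domain of the matrix extensions

* `rad_of_def` : if all extensions of a family are defined at one common matrix that is not
  nilpotent, then all Taylor series converge at one common point `ρ > 0`.
* `degenerate` : for `f_k = 1 / (1 + (k + 1)² z²)` the extensions are all defined at nilpotent
  matrices only, and `g = z + z^(n+1)` is the identity at nilpotent `n × n` matrices.
-/

open Filter Topology Polynomial

namespace Pool.Agent.MP_4d0c5f_nt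

/-- the Taylor coefficients are those of any power series that represents the function -/
theorem taylorCoeff_of_hasSum {f : ℝ → ℝ} (hf : AnalyticAt ℝ f 0) (a : ℕ → ℝ)
    (h : ∀ᶠ z : ℝ in 𝓝 0, HasSum (fun n => a n * z ^ n) (f z)) (j : ℕ) :
    taylorCoeff f j = a j := by
  have h1 := hf.hasFPowerSeriesAt
  have h2 : HasFPowerSeriesAt f (FormalMultilinearSeries.ofScalars ℝ a) 0 := by
    rw [hasFPowerSeriesAt_iff]
    filter_upwards [h] with z hz
    simpa [FormalMultilinearSeries.coeff_ofScalars, mul_comm] using hz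
  have h3 := h1.eq_formalMultilinearSeries h2
  have h4 := congrArg (fun p => FormalMultilinearSeries.coeff p j) h3
  simpa [FormalMultilinearSeries.coeff_ofScalars, taylorCoeff] using h4

/-- a polynomial that vanishes on a neighbourhood of `0` is zero -/
theorem poly_zero {I : Set ℝ} (hI : IsOpen I) (h0 : (0 : ℝ) ∈ I) (P : ℝ[X])
    (h : ∀ z ∈ I, P.eval z = 0) : P = 0 := by
  apply Polynomial.eq_zero_of_infinite_isRoot
  have h1 : I.Infinite := infinite_of_mem_nhds (0 : ℝ) (hI.mem_nhds h0)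
  exact h1.mono fun z hz => h z hz

/-- the functions `f_k` -/
noncomputable def fd (k : ℕ) (z : ℝ) : ℝ := (1 + ((k : ℝ) + 1) ^ 2 * z ^ 2)⁻¹

/-- the function `g` -/
noncomputable def gd (n : ℕ) (z : ℝ) : ℝ := z + z ^ (n + 1)

theorem fd_pos (k : ℕ) (z : ℝ) : (0 : ℝ) < 1 + ((k : ℝ) + 1) ^ 2 * z ^ 2 := by positivity

theorem fd_analytic (k : ℕ) (I : Set ℝ) : AnalyticOnNhd ℝ (fd k) I := by
  intro z _
  unfold fd
  refine AnalyticAt.inv ?_ (fd_pos k z).ne'
  fun_prop

theorem gd_analytic (n : ℕ) (I : Set ℝ) : AnalyticOnNhd ℝ (gd n) I := by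
  intro z _
  unfold gd
  fun_prop

/-- the Taylor coefficients of `f_k` of even degree -/
theorem coeff_fd (k j : ℕ) : taylorCoeff (fd k) (2 * j) = (-(((k : ℝ) + 1) ^ 2)) ^ j := by
  have h := taylorCoeff_of_hasSum (fd_analytic k Set.univ 0 trivial)
    (fun n => if Even n then (-(((k : ℝ) + 1) ^ 2)) ^ (n / 2) else 0) ?_ (2 * j)
  · rw [h, if_pos (even_two_mul j), Nat.mul_div_cancel_left j two_pos]
  · have h1 : ∀ᶠ z : ℝ in 𝓝 0, |(((k : ℝ) + 1) ^ 2) * z ^ 2| < 1 := by
      have h2 : ContinuousAt (fun z : ℝ => |(((k : ℝ) + 1) ^ 2) * z ^ 2|) 0 := by fun_prop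
      refine h2.eventually_lt continuousAt_const ?_
      simp
    filter_upwards [h1] with z hz
    have h3 : HasSum (fun m : ℕ => (-(((k : ℝ) + 1) ^ 2 * z ^ 2)) ^ m)
        (1 - -(((k : ℝ) + 1) ^ 2 * z ^ 2))⁻¹ := by
      apply hasSum_geometric_of_norm_lt_one
      rw [Real.norm_eq_abs, abs_neg]
      exact hz
    have h4 : (1 - -(((k : ℝ) + 1) ^ 2 * z ^ 2))⁻¹ = fd k z := by
      rw [fd, sub_neg_eq_add]
    rw [h4] at h3
    have hinj : Function.Injective (fun m : ℕ => 2 * m) := fun a b hab => by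
      simpa using hab
    refine (hinj.hasSum_iff (f := fun n : ℕ => (if Even n then (-(((k : ℝ) + 1) ^ 2)) ^ (n / 2)
      else 0) * z ^ n) ?_).1 ?_
    · intro m hm
      rw [if_neg, zero_mul]
      rintro ⟨r, hr⟩
      exact hm ⟨r, by simp only; omega⟩
    · convert h3 using 2 with m
      simp only [Function.comp_apply]
      rw [if_pos (even_two_mul m), Nat.mul_div_cancel_left m two_pos, pow_mul, ← mul_pow]
      congr 1
      ring

/-- the Taylor coefficients of `g` -/
theorem coeff_gd (n j : ℕ) (hn : 1 ≤ n) (hj : j ≤ n) :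
    taylorCoeff (gd n) j = if j = 1 then 1 else 0 := by
  have h := taylorCoeff_of_hasSum (gd_analytic n Set.univ 0 trivial)
    (fun m => if m = 1 ∨ m = n + 1 then 1 else 0) ?_ j
  · rw [h]
    by_cases hj1 : j = 1
    · rw [if_pos (Or.inl hj1), if_pos hj1]
    · rw [if_neg hj1, if_neg]
      rintro (h | h)
      · exact hj1 h
      · omega
  · refine Eventually.of_forall fun z => ?_
    have h5 : HasSum (fun m : ℕ => (if m = 1 ∨ m = n + 1 then (1 : ℝ) else 0) * z ^ m)
        (∑ m ∈ ({1, n + 1} : Finset ℕ), (if m = 1 ∨ m = n + 1 then (1 : ℝ) else 0) * z ^ m) := by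
      apply hasSum_sum_of_ne_finset_zero
      intro m hm
      simp only [Finset.mem_insert, Finset.mem_singleton] at hm
      rw [if_neg hm, zero_mul]
    rw [Finset.sum_pair (by omega)] at h5
    simpa [gd] using h5

/-- condition (i) -/
theorem cond_i (n : ℕ) (hn : 2 ≤ n) {I : Set ℝ} (hI : IsOpen I) (h0 : (0 : ℝ) ∈ I)
    (a b c d : ℝ) (hcd : c ≠ 0 ∨ d ≠ 0) :
    ¬ ∀ z ∈ I, c * z + d ≠ 0 ∧ gd n z = (a * z + b) / (c * z + d) := by
  intro h
  have h1 := poly_zero hI h0 ((X + X ^ (n + 1)) * (C c * X + C d) - (C a * X + C b)) ?_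
  · have e1 : ((X + X ^ (n + 1)) * (C c * X + C d) - (C a * X + C b) : ℝ[X])
        = C c * X ^ 2 + C d * X ^ 1 + C c * X ^ (n + 2) + C d * X ^ (n + 1) - C a * X ^ 1
          - C b * X ^ 0 := by ring
    rw [e1] at h1
    have key : ∀ m : ℕ, c * (if m = 2 then 1 else 0) + d * (if m = 1 then 1 else 0)
        + c * (if m = n + 2 then 1 else 0) + d * (if m = n + 1 then 1 else 0)
        - a * (if m = 1 then 1 else 0) - b * (if m = 0 then 1 else 0) = 0 := by
      intro m
      have h2 := congrArg (fun P => P.coeff m) h1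
      simp only [coeff_add, coeff_sub, coeff_C_mul, coeff_X_pow, coeff_zero] at h2
      exact h2
    have h2 := key (n + 2)
    have h3 := key (n + 1)
    rw [if_neg (by omega), if_neg (by omega), if_pos rfl, if_neg (by omega), if_neg (by omega)]
      at h2
    rw [if_neg (by omega), if_neg (by omega), if_neg (by omega), if_pos rfl, if_neg (by omega)]
      at h3
    rcases hcd with hc | hd
    · apply hc
      linarith
    · apply hd
      linarith
  · intro z hz
    obtain ⟨h2, h3⟩ := h z hz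
    rw [eq_div_iff h2, gd] at h3
    simp only [eval_sub, eval_mul, eval_add, eval_X, eval_pow, eval_C]
    linarith

/-- condition (ii) -/
theorem cond_ii (n k : ℕ) (hn : 2 ≤ n) {I : Set ℝ} (hI : IsOpen I) (h0 : (0 : ℝ) ∈ I)
    (a b c d : ℝ) (hcd : c ≠ 0 ∨ d ≠ 0) :
    ¬ ∀ z ∈ I, c * gd n z + d ≠ 0 ∧ fd k z = (a * gd n z + b) / (c * gd n z + d) := by
  intro h
  set K : ℝ := ((k : ℝ) + 1) ^ 2 with hK
  have hKpos : K ≠ 0 := by positivity
  have h1 := poly_zero hI h0 ((C a * (X + X ^ (n + 1)) + C b) * (1 + C K * X ^ 2) -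
    (C c * (X + X ^ (n + 1)) + C d)) ?_
  · have e1 : ((C a * (X + X ^ (n + 1)) + C b) * (1 + C K * X ^ 2) -
        (C c * (X + X ^ (n + 1)) + C d) : ℝ[X])
        = C a * X ^ 1 + C a * X ^ (n + 1) + C b * X ^ 0 + C (a * K) * X ^ 3
          + C (a * K) * X ^ (n + 3) + C (b * K) * X ^ 2 - C c * X ^ 1 - C c * X ^ (n + 1)
          - C d * X ^ 0 := by
      simp only [C_mul]
      ring
    rw [e1] at h1
    have key : ∀ m : ℕ, a * (if m = 1 then 1 else 0) + a * (if m = n + 1 then 1 else 0)
        + b * (if m = 0 then 1 else 0) + a * K * (if m = 3 then 1 else 0)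
        + a * K * (if m = n + 3 then 1 else 0) + b * K * (if m = 2 then 1 else 0)
        - c * (if m = 1 then 1 else 0) - c * (if m = n + 1 then 1 else 0)
        - d * (if m = 0 then 1 else 0) = 0 := by
      intro m
      have h2 := congrArg (fun P => P.coeff m) h1
      simp only [coeff_add, coeff_sub, coeff_C_mul, coeff_X_pow, coeff_zero] at h2
      exact h2
    have h2 := key (n + 3)
    have h3 := key 1
    have h4 := key 2
    have h5 := key 0
    have ha : a = 0 := by
      rw [if_neg (by omega), if_neg (by omega), if_neg (by omega), if_neg (by omega),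
        if_pos rfl, if_neg (by omega)] at h2
      have : a * K = 0 := by linarith
      rcases mul_eq_zero.1 this with h | h
      · exact h
      · exact absurd h hKpos
    subst ha
    have hc : c = 0 := by
      rw [if_pos rfl, if_neg (by omega), if_neg (by omega), if_neg (by omega),
        if_neg (by omega), if_neg (by omega)] at h3
      linarith
    subst hc
    have hb : b = 0 := by
      rw [if_neg (by omega), if_neg (by omega), if_neg (by omega), if_neg (by omega),
        if_neg (by omega), if_pos rfl] at h4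
      have : b * K = 0 := by linarith
      rcases mul_eq_zero.1 this with h | h
      · exact h
      · exact absurd h hKpos
    subst hb
    have hd : d = 0 := by
      rw [if_neg (by omega), if_neg (by omega), if_pos rfl, if_neg (by omega),
        if_neg (by omega), if_neg (by omega)] at h5
      linarith
    subst hd
    rcases hcd with h | h <;> exact h rfl
  · intro z hz
    obtain ⟨h2, h3⟩ := h z hz
    have h6 := (fd_pos k z).ne'
    rw [eq_div_iff h2, fd, inv_mul_eq_div, div_eq_iff h6] at h3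
    rw [gd] at h3
    simp only [eval_sub, eval_mul, eval_add, eval_X, eval_pow, eval_C, eval_one, hK]
    linarith

/-- a real matrix with no nonzero complex eigenvalue is nilpotent -/
theorem pow_eq_zero_of_eig (n : ℕ) (A : Matrix (Fin n) (Fin n) ℝ)
    (hA : ∀ (z : ℂ) (v : Fin n → ℂ), v ≠ 0 → (A.map (algebraMap ℝ ℂ)).mulVec v = z • v → z = 0) :
    A ^ n = 0 := by
  set B : Matrix (Fin n) (Fin n) ℂ := A.map (algebraMap ℝ ℂ) with hB
  have hroot : ∀ z ∈ B.charpoly.roots, z = 0 := by
    intro z hz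
    rw [mem_roots (Matrix.charpoly_monic B).ne_zero, IsRoot.def] at hz
    have hdet : (z • (1 : Matrix (Fin n) (Fin n) ℂ) - B).det = 0 := by
      rw [Matrix.eval_charpoly] at hz
      rw [← hz]
      congr 1
      ext i j
      simp [Matrix.scalar_apply, Matrix.smul_apply, Matrix.one_apply, Matrix.diagonal_apply]
    obtain ⟨v, hv0, hv⟩ := Matrix.exists_mulVec_eq_zero_iff.2 hdet
    refine hA z v hv0 ?_
    rw [Matrix.sub_mulVec, Matrix.smul_mulVec, Matrix.one_mulVec, sub_eq_zero] at hv
    exact hv.symm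
  have hchar : B.charpoly = X ^ n := by
    have h1 := (IsAlgClosed.splits B.charpoly).eq_prod_roots_of_monic (Matrix.charpoly_monic B)
    have h2 : B.charpoly.roots = Multiset.replicate (Multiset.card B.charpoly.roots) 0 :=
      Multiset.eq_replicate_card.2 hroot
    have h3 : Multiset.card B.charpoly.roots = n := by
      rw [← (IsAlgClosed.splits B.charpoly).natDegree_eq_card_roots]
      simp [Matrix.charpoly_natDegree_eq_dim B]
    rw [h1, h2, h3]
    simp
  have hBn : B ^ n = 0 := by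
    have := Matrix.aeval_self_charpoly B
    rw [hchar] at this
    simpa using this
  have : (A ^ n).map (algebraMap ℝ ℂ) = 0 := by
    rw [Matrix.map_pow]
    exact hBn
  ext i j
  have h := congrFun (congrFun this i) j
  simpa using h

/-- if the extension of `f` is defined at `A` and `z` is an eigenvalue of `A`, then the terms of
the Taylor series at `z` tend to `0` -/
theorem terms_tendsto {n : ℕ} {f : ℝ → ℝ} {A : Matrix (Fin n) (Fin n) ℝ} (hf : ExtDefined f A)
    {z : ℂ} {v : Fin n → ℂ} (hv0 : v ≠ 0) (hv : (A.map (algebraMap ℝ ℂ)).mulVec v = z • v) :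
    Tendsto (fun j : ℕ => |taylorCoeff f j| * ‖z‖ ^ j) atTop (𝓝 0) := by
  set B : Matrix (Fin n) (Fin n) ℂ := A.map (algebraMap ℝ ℂ) with hB
  have hpow : ∀ m : ℕ, (B ^ m).mulVec v = z ^ m • v := by
    intro m
    induction m with
    | zero => simp
    | succ m ih =>
      rw [pow_succ, ← Matrix.mulVec_mulVec, hv, Matrix.mulVec_smul, ih, smul_smul, pow_succ,
        mul_comm]
  obtain ⟨i, hi⟩ := Function.ne_iff.1 hv0
  have hs := hf.tendsto_atTop_zero
  have hs3 : Tendsto (fun j : ℕ => (((taylorCoeff f j • A ^ j).map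
      (algebraMap ℝ ℂ)).mulVec v) i) atTop (𝓝 0) := by
    have hc : Continuous (fun M : Matrix (Fin n) (Fin n) ℝ =>
        ((M.map (algebraMap ℝ ℂ)).mulVec v) i) := by
      simp only [Matrix.mulVec, dotProduct, Matrix.map_apply]
      refine continuous_finsetSum _ fun j _ => ?_
      refine Continuous.mul ?_ continuous_const
      exact Complex.continuous_ofReal.comp (continuous_apply_apply i j)
    have := (hc.tendsto 0).comp hs
    simpa [Function.comp_def] using this
  have hval : ∀ j : ℕ, (((taylorCoeff f j • A ^ j).map (algebraMap ℝ ℂ)).mulVec v) i =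
      (taylorCoeff f j : ℂ) * (z ^ j * v i) := by
    intro j
    have e1 : (taylorCoeff f j • A ^ j).map (algebraMap ℝ ℂ) =
        ((taylorCoeff f j : ℝ) : ℂ) • B ^ j := by
      rw [hB, ← Matrix.map_pow]
      ext a b
      simp
    rw [e1, Matrix.smul_mulVec, hpow]
    simp
  have hvi : ‖v i‖ ≠ 0 := fun h => hi (norm_eq_zero.1 h)
  have h6 := hs3.norm.mul_const (‖v i‖⁻¹)
  rw [norm_zero, zero_mul] at h6
  refine h6.congr fun j => ?_
  rw [hval, norm_mul, norm_mul, norm_pow, Complex.norm_real, Real.norm_eq_abs]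
  field_simp

/-- if all extensions are defined at one common matrix that is not nilpotent, then all Taylor
series converge at one common point -/
theorem rad_of_def {n : ℕ} (B : Matrix (Fin n) (Fin n) ℝ) (hB : ¬ IsNilpotent B) :
    ∃ ρ : ℝ, 0 < ρ ∧ ∀ f : ℝ → ℝ, ExtDefined f B → Summable fun j => taylorCoeff f j * ρ ^ j := by
  have h1 : ∃ (z : ℂ) (v : Fin n → ℂ), v ≠ 0 ∧
      (B.map (algebraMap ℝ ℂ)).mulVec v = z • v ∧ z ≠ 0 := by
    by_contra hcon
    push Not at hcon
    exact hB ⟨n, pow_eq_zero_of_eig n B hcon⟩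
  obtain ⟨z, v, hv0, hv, hz⟩ := h1
  have hzn : 0 < ‖z‖ := norm_pos_iff.2 hz
  refine ⟨‖z‖ / 2, by positivity, fun f hf => ?_⟩
  obtain ⟨C, hC⟩ := (terms_tendsto hf hv0 hv).bddAbove_range
  refine Summable.of_norm_bounded (g := fun j : ℕ => C * (1 / 2 : ℝ) ^ j)
    (summable_geometric_two.mul_left C) fun j => ?_
  have h2 : |taylorCoeff f j| * ‖z‖ ^ j ≤ C := hC ⟨j, rfl⟩
  rw [norm_mul, Real.norm_eq_abs, norm_pow, Real.norm_of_nonneg (by positivity : 0 ≤ ‖z‖ / 2),
    div_eq_mul_one_div, mul_pow, ← mul_assoc]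
  exact mul_le_mul_of_nonneg_right h2 (by positivity)

/-- all `f_k` are defined at nilpotent matrices only -/
theorem pow_eq_zero_of_def (n : ℕ) (A : Matrix (Fin n) (Fin n) ℝ)
    (hA : ∀ k, ExtDefined (fd k) A) : A ^ n = 0 := by
  refine pow_eq_zero_of_eig n A fun z v hv0 hv => ?_
  by_contra hz0
  obtain ⟨k, hk⟩ := exists_nat_gt (‖z‖⁻¹)
  have hzn : 0 < ‖z‖ := norm_pos_iff.2 hz0
  have hk1 : 1 ≤ ((k : ℝ) + 1) * ‖z‖ := by
    have : ‖z‖⁻¹ * ‖z‖ = 1 := inv_mul_cancel₀ hzn.ne'
    nlinarith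
  have h1 := (terms_tendsto (hA k) hv0 hv).comp
    ((strictMono_mul_left_of_pos two_pos : StrictMono fun j : ℕ => 2 * j).tendsto_atTop)
  have h2 : ∀ j : ℕ, (1 : ℝ) ≤ ((fun j : ℕ => |taylorCoeff (fd k) j| * ‖z‖ ^ j) ∘
      fun j : ℕ => 2 * j) j := by
    intro j
    simp only [Function.comp_apply]
    rw [coeff_fd, abs_pow, abs_neg, abs_of_nonneg (by positivity), pow_mul, ← mul_pow, ← mul_pow]
    exact one_le_pow₀ (one_le_pow₀ hk1)
  exact absurd (ge_of_tendsto' h1 h2) (by norm_num)

/-- **Without a common non-nilpotent matrix.** For every `n ≥ 2` there are sequences of functions,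
real-analytic on the whole line and satisfying (i) and (ii) on every open set that contains `0`,
such that every matrix `A` at which all `f k` are defined is nilpotent and satisfies
`g k (A) = A` for all `k`. -/
theorem degenerate (n : ℕ) (hn : 2 ≤ n) :
    ∃ f g : ℕ → ℝ → ℝ, (∀ k, AnalyticOnNhd ℝ (f k) Set.univ) ∧
      (∀ k, AnalyticOnNhd ℝ (g k) Set.univ) ∧
      (∀ I : Set ℝ, IsOpen I → (0 : ℝ) ∈ I →
        (∀ k : ℕ, ∀ a b c d : ℝ, (c ≠ 0 ∨ d ≠ 0) →
          ¬ ∀ z ∈ I, c * z + d ≠ 0 ∧ g k z = (a * z + b) / (c * z + d)) ∧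
        ∀ k₁ k₂ : ℕ, ∀ a b c d : ℝ, (c ≠ 0 ∨ d ≠ 0) →
          ¬ ∀ z ∈ I, c * g k₂ z + d ≠ 0 ∧ f k₁ z = (a * g k₂ z + b) / (c * g k₂ z + d)) ∧
      ∀ A : Matrix (Fin n) (Fin n) ℝ, (∀ k, ExtDefined (f k) A) →
        IsNilpotent A ∧ ∀ k, ExtDefined (g k) A ∧ matExt (g k) A = A := by
  refine ⟨fd, fun _ => gd n, fun k => fd_analytic k _, fun _ => gd_analytic n _,
    fun I hI h0 => ⟨fun _ a b c d h => cond_i n hn hI h0 a b c d h,
      fun k₁ _ a b c d h => cond_ii n k₁ hn hI h0 a b c d h⟩, ?_⟩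
  intro A hA
  have hAn := pow_eq_zero_of_def n A hA
  refine ⟨⟨n, hAn⟩, fun _ => ?_⟩
  have hz : ∀ j, j ≠ 1 → taylorCoeff (gd n) j • A ^ j = 0 := by
    intro j hj
    rcases le_or_gt n j with h | h
    · rw [← Nat.sub_add_cancel h, pow_add, hAn, mul_zero, smul_zero]
    · rw [coeff_gd n j (by omega) h.le, if_neg hj, zero_smul]
  have hs : HasSum (fun j : ℕ => taylorCoeff (gd n) j • A ^ j) A := by
    have h1 := hasSum_single (f := fun j : ℕ => taylorCoeff (gd n) j • A ^ j) 1 hz
    simpa [coeff_gd n 1 (by omega) (by omega)] using h1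
  exact ⟨hs.summable, hs.tsum_eq⟩

end Pool.Agent.MP_4d0c5f_nt
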