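import Pool.Agent.MP_4d0c5f_nt.Construct

open Set Filter Topology

namespace Pool.Agent.MP_4d0c5f_nt

lemma nhds_basis_aux {x : ℝ × ℝ × (ℕ → ℕ)} {U : Set (ℝ × ℝ × (ℕ → ℕ))} (hU : U ∈ 𝓝 x) :
    ∃ ε > 0, ∃ K : ℕ, ∀ y : ℝ × ℝ × (ℕ → ℕ), |y.1 - x.1| < ε → |y.2.1 - x.2.1| < ε →
      (∀ k < K, y.2.2 k = x.2.2 k) → y ∈ U := by
  obtain ⟨θ, s, T⟩ := x
  rw [mem_nhds_prod_iff] at hU
  obtain ⟨u, hu, v, hv, huv⟩ := hU
  rw [mem_nhds_prod_iff] at hv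
  obtain ⟨v1, hv1, v2, hv2, hv12⟩ := hv
  obtain ⟨ε1, hε1, hε1'⟩ := Metric.mem_nhds_iff.mp hu
  obtain ⟨ε2, hε2, hε2'⟩ := Metric.mem_nhds_iff.mp hv1
  rw [nhds_pi, Filter.mem_pi] at hv2
  obtain ⟨I, hI, t, ht, hIt⟩ := hv2
  obtain ⟨K, hK⟩ := hI.bddAbove
  refine ⟨min ε1 ε2, lt_min hε1 hε2, K + 1, fun y h1 h2 h3 => ?_⟩
  apply huv
  refine ⟨hε1' ?_, hv12 ⟨hε2' ?_, hIt ?_⟩⟩
  · rw [Metric.mem_ball, Real.dist_eq]; exact lt_of_lt_of_le h1 (min_le_left _ _)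
  · rw [Metric.mem_ball, Real.dist_eq]; exact lt_of_lt_of_le h2 (min_le_right _ _)
  · intro i hi
    have h4 := h3 i (Nat.lt_succ_of_le (hK hi))
    rw [h4]
    exact mem_of_mem_nhds (ht i)

lemma exists_pos_le_of_finite {α : Type*} {s : Set α} (hs : s.Finite) {f : α → ℝ}
    (hf : ∀ a ∈ s, 0 < f a) : ∃ c : ℝ, 0 < c ∧ ∀ a ∈ s, c ≤ f a := by
  induction s, hs using Set.Finite.induction_on with
  | empty => exact ⟨1, one_pos, fun a ha => absurd ha (notMem_empty a)⟩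
  | @insert a s _ _ ih =>
    obtain ⟨c, hc, hc'⟩ := ih (fun b hb => hf b (mem_insert_of_mem _ hb))
    refine ⟨min c (f a), lt_min hc (hf a (mem_insert _ _)), ?_⟩
    intro b hb
    rcases mem_insert_iff.mp hb with rfl | hb
    · exact min_le_right _ _
    · exact (min_le_left _ _).trans (hc' b hb)

variable {G H H0 : ℕ → ℝ}

/-- closed condition -/
def ZZ (G : ℕ → ℝ) : Set (ℝ × ℝ × (ℕ → ℕ)) :=
  ⋂ k : ℕ, ⋂ w : ℤ × ℤ × ℤ × ℤ, ({_x | w = 0} ∪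
    ((fun x : ℝ × ℝ × (ℕ → ℕ) => x.2.2 k) ⁻¹' {m | sz w < m} ∪
      {x | 1 / (sz w : ℝ) ^ NN ≤ |lf (G k) x.1 w|}))

lemma isClosed_ZZ (G : ℕ → ℝ) : IsClosed (ZZ G) := by
  refine isClosed_iInter fun k => isClosed_iInter fun w => ?_
  refine IsClosed.union isClosed_const (IsClosed.union ?_ ?_)
  · exact (isClosed_discrete _).preimage (by fun_prop)
  · refine isClosed_le continuous_const ?_
    unfold lf
    fun_prop

lemma nice_subset_ZZ : Nice G H H0 ⊆ ZZ G := by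
  intro x hx
  refine mem_iInter.mpr fun k => mem_iInter.mpr fun w => ?_
  by_cases hw : w = 0
  · exact Or.inl hw
  · by_cases h : x.2.2 k ≤ sz w
    · exact Or.inr (Or.inr (hx.2 k w hw h).le)
    · exact Or.inr (Or.inl (not_le.mp h))

/-- forbidden value of `θ` -/
noncomputable def bad (h : ℝ) (w : ℤ × ℤ × ℤ × ℤ) : ℝ := -(h * w.1 - w.2.2.1) / (h * w.2.1 - w.2.2.2)

lemma lf_ne_zero {h θ : ℝ} (hirr : ∀ a b : ℤ, (a ≠ 0 ∨ b ≠ 0) → h * a - b ≠ 0)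
    {w : ℤ × ℤ × ℤ × ℤ} (hw : w ≠ 0) (hθ : θ ≠ bad h w) : lf h θ w ≠ 0 := by
  obtain ⟨q1, q2, p1, p2⟩ := w
  have e : lf h θ (q1, q2, p1, p2) = (h * q1 - p1) + θ * (h * q2 - p2) := by
    unfold lf; ring
  rw [e]
  by_cases h2 : q2 ≠ 0 ∨ p2 ≠ 0
  · have h3 := hirr _ _ h2
    intro h0
    apply hθ
    unfold bad
    rw [eq_div_iff h3]
    linarith
  · push Not at h2
    obtain ⟨rfl, rfl⟩ := h2
    have h4 : q1 ≠ 0 ∨ p1 ≠ 0 := by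
      by_contra hcon
      push Not at hcon
      obtain ⟨rfl, rfl⟩ := hcon
      exact hw rfl
    have := hirr _ _ h4
    simpa using this

/-- Existence of the parameters `θ`, `s`. -/
theorem exists_theta_s (hdio : ∀ k l, ∃ c : ℝ, 0 < c ∧ ∀ w : ℤ × ℤ × ℤ × ℤ, w ≠ 0 →
      c / (sz w : ℝ) ^ 24 ≤ |comb (G k) (H l) w|) (hH : ∀ l, H l ≠ H0 l) :
    ∃ θ s : ℝ,
      (∀ l N : ℕ, ∃ (Q : ℕ) (P1 P2 : ℤ), 2 ≤ Q ∧
        |Q * (H l - θ * ((H l - H0 l) * s)) - P1| < 1 / (Q : ℝ) ^ N ∧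
        |Q * ((H l - H0 l) * s) - P2| < 1 / (Q : ℝ) ^ N) ∧
      (∀ k, ∃ c : ℝ, 0 < c ∧ ∀ w : ℤ × ℤ × ℤ × ℤ, w ≠ 0 →
        c / (sz w : ℝ) ^ NN ≤ |lf (G k) θ w|) ∧
      (∀ l, ∀ w : ℤ × ℤ × ℤ × ℤ, w ≠ 0 → lf (H l) θ w ≠ 0) := by
  have irrH : ∀ l, ∀ a b : ℤ, (a ≠ 0 ∨ b ≠ 0) → H l * a - b ≠ 0 := by
    intro l a b hab h0
    obtain ⟨c, hc, hc'⟩ := hdio 0 l
    have hw : ((-b, 0, a, 0) : ℤ × ℤ × ℤ × ℤ) ≠ 0 := by
      intro h; simp at h; tauto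
    have h1 := hc' _ hw
    have h2 : comb (G 0) (H l) (-b, 0, a, 0) = 0 := by
      unfold comb; push_cast; linarith
    rw [h2, abs_zero] at h1
    have h3 := one_le_sz (-b, 0, a, 0)
    have : 0 < c / (sz (-b, 0, a, 0) : ℝ) ^ 24 := by positivity
    linarith
  have irrG : ∀ k, ∀ a b : ℤ, (a ≠ 0 ∨ b ≠ 0) → G k * a - b ≠ 0 := by
    intro k a b hab h0
    obtain ⟨c, hc, hc'⟩ := hdio k 0
    have hw : ((-b, a, 0, 0) : ℤ × ℤ × ℤ × ℤ) ≠ 0 := by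
      intro h; simp at h; tauto
    have h1 := hc' _ hw
    have h2 : comb (G k) (H 0) (-b, a, 0, 0) = 0 := by
      unfold comb; push_cast; linarith
    rw [h2, abs_zero] at h1
    have h3 := one_le_sz (-b, a, 0, 0)
    have : 0 < c / (sz (-b, a, 0, 0) : ℝ) ^ 24 := by positivity
    linarith
  let O : (ℕ × ℕ) ⊕ ((ℕ × (ℤ × ℤ × ℤ × ℤ)) ⊕ (ℕ × (ℤ × ℤ × ℤ × ℤ))) →
      Set (ℝ × ℝ × (ℕ → ℕ)) := fun i => match i with
    | Sum.inl (l, N) => ⋃ (Q : ℕ), ⋃ (P1 : ℤ), ⋃ (P2 : ℤ), {x | 2 ≤ Q ∧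
        |Q * (H l - x.1 * ((H l - H0 l) * x.2.1)) - P1| < 1 / (Q : ℝ) ^ N ∧
        |Q * ((H l - H0 l) * x.2.1) - P2| < 1 / (Q : ℝ) ^ N}
    | Sum.inr (Sum.inl (l, w)) => {x | x.1 ≠ bad (H l) w}
    | Sum.inr (Sum.inr (k, w)) => {x | x.1 ≠ bad (G k) w}
  have hO : ∀ i, IsOpen (O i) := by
    rintro (⟨l, N⟩ | ⟨l, w⟩ | ⟨k, w⟩)
    · refine isOpen_iUnion fun Q => isOpen_iUnion fun P1 => isOpen_iUnion fun P2 => ?_
      refine IsOpen.and isOpen_const (IsOpen.and (isOpen_lt ?_ ?_) (isOpen_lt ?_ ?_)) <;> fun_prop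
    · exact isOpen_ne_fun continuous_fst continuous_const
    · exact isOpen_ne_fun continuous_fst continuous_const
  obtain ⟨x, hxcl, hxO⟩ := baire_aux (Nice G H H0) (nice_nonempty hdio hH) O hO (by
    intro i x hx U hU hxU
    obtain ⟨ε, hε, K, hK⟩ := nhds_basis_aux (hU.mem_nhds hxU)
    rcases i with ⟨l, N⟩ | ⟨l, w⟩ | ⟨k, w⟩
    · obtain ⟨y, hy, h1, h2, h3, ⟨Q, P1, P2, hQ, e1, e2⟩, -⟩ := step hdio hH hx l 0 ε hε K
      refine ⟨y, hy, hK y h1 h2 h3, ?_⟩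
      have hQ0 : (0 : ℝ) < Q := by
        have : (2 : ℝ) ≤ Q := by exact_mod_cast hQ
        linarith
      refine mem_iUnion.mpr ⟨Q, mem_iUnion.mpr ⟨P1, mem_iUnion.mpr ⟨P2, hQ, ?_, ?_⟩⟩⟩
      · rw [e1, sub_self, abs_zero]; positivity
      · rw [e2, sub_self, abs_zero]; positivity
    · obtain ⟨y, hy, h1, h2, h3, -, hne⟩ := step hdio hH hx l (bad (H l) w) ε hε K
      exact ⟨y, hy, hK y h1 h2 h3, hne⟩
    · obtain ⟨y, hy, h1, h2, h3, -, hne⟩ := step hdio hH hx 0 (bad (G k) w) ε hε K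
      exact ⟨y, hy, hK y h1 h2 h3, hne⟩)
  have hxZ : x ∈ ZZ G := (isClosed_ZZ G).closure_subset_iff.mpr nice_subset_ZZ hxcl
  refine ⟨x.1, x.2.1, ?_, ?_, ?_⟩
  · intro l N
    have h1 := hxO (Sum.inl (l, N))
    obtain ⟨Q, h2⟩ := mem_iUnion.mp h1
    obtain ⟨P1, h3⟩ := mem_iUnion.mp h2
    obtain ⟨P2, h4⟩ := mem_iUnion.mp h3
    exact ⟨Q, P1, P2, h4⟩
  · intro k
    have hne : ∀ w : ℤ × ℤ × ℤ × ℤ, w ≠ 0 → lf (G k) x.1 w ≠ 0 := fun w hw =>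
      lf_ne_zero (irrG k) hw (hxO (Sum.inr (Sum.inr (k, w))))
    obtain ⟨c, hc, hc'⟩ := exists_pos_le_of_finite
      (s := {w : ℤ × ℤ × ℤ × ℤ | sz w < x.2.2 k} ∩ {w | w ≠ 0})
      ((finite_sz_lt _).inter_of_left _) (f := fun w => |lf (G k) x.1 w|)
      (fun w hw => abs_pos.mpr (hne w hw.2))
    refine ⟨min c 1, lt_min hc one_pos, fun w hw => ?_⟩
    have hz1 := one_le_sz w
    have hz0 : (0 : ℝ) < sz w := by linarith
    by_cases h : sz w < x.2.2 k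
    · have h1 := hc' w ⟨h, hw⟩
      refine le_trans ?_ h1
      rw [div_le_iff₀ (by positivity)]
      have h2 : (1 : ℝ) ≤ (sz w : ℝ) ^ NN := one_le_pow₀ hz1
      have h3 : min c 1 ≤ c := min_le_left _ _
      nlinarith
    · have h1 := mem_iInter.mp (mem_iInter.mp hxZ k) w
      rcases h1 with h1 | h1 | h1
      · exact absurd h1 hw
      · exact absurd h1 h
      · refine le_trans ?_ h1
        apply div_le_div_of_nonneg_right (min_le_right _ _) (by positivity)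
  · intro l w hw
    exact lf_ne_zero (irrH l) hw (hxO (Sum.inr (Sum.inl (l, w))))

end Pool.Agent.MP_4d0c5f_nt
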