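import Pool.Agent.MP_4d0c5f_nt.MatrixPart

open MeasureTheory Set Filter Topology

namespace Pool.Agent.MP_4d0c5f_nt

lemma omega4_ge (w : ℤ × ℤ × ℤ × ℤ) : ((sz w : ℝ) ^ 8)⁻¹ ≤ omega4 w := by
  have hz1 := one_le_sz w
  have hz0 : (0 : ℝ) < sz w := by linarith
  have key : ∀ n : ℤ, 1 + |(n : ℝ)| ≤ sz w → ((sz w : ℝ) ^ 2)⁻¹ ≤ om n := by
    intro n hn
    unfold om
    apply inv_anti₀ (by positivity)
    exact pow_le_pow_left₀ (by positivity) hn 2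
  have n1 := abs_nonneg (w.1 : ℝ)
  have n2 := abs_nonneg (w.2.1 : ℝ)
  have n3 := abs_nonneg (w.2.2.1 : ℝ)
  have n4 := abs_nonneg (w.2.2.2 : ℝ)
  have hs := sz_cast w
  have k1 := key w.1 (by linarith)
  have k2 := key w.2.1 (by linarith)
  have k3 := key w.2.2.1 (by linarith)
  have k4 := key w.2.2.2 (by linarith)
  have hp : (0 : ℝ) ≤ ((sz w : ℝ) ^ 2)⁻¹ := by positivity
  unfold omega4
  calc ((sz w : ℝ) ^ 8)⁻¹ = ((sz w : ℝ) ^ 2)⁻¹ * (((sz w : ℝ) ^ 2)⁻¹ *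
        (((sz w : ℝ) ^ 2)⁻¹ * ((sz w : ℝ) ^ 2)⁻¹)) := by
        rw [← mul_inv, ← mul_inv, ← mul_inv]; congr 1; ring
    _ ≤ _ := by
        have s3 := mul_le_mul k3 k4 hp (om_pos _).le
        have s2 := mul_le_mul k2 s3 (mul_nonneg hp hp) (om_pos _).le
        exact mul_le_mul k1 s2 (mul_nonneg hp (mul_nonneg hp hp)) (om_pos _).le

lemma dio_of_tau {G H τ : ℝ} (hτ : 0 < τ)
    (h : ∀ w : ℤ × ℤ × ℤ × ℤ, w ≠ 0 → (τ * omega4 w) ^ 3 ≤ |comb G H w|) :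
    ∃ c : ℝ, 0 < c ∧ ∀ w : ℤ × ℤ × ℤ × ℤ, w ≠ 0 → c / (sz w : ℝ) ^ 24 ≤ |comb G H w| := by
  refine ⟨τ ^ 3, by positivity, fun w hw => le_trans ?_ (h w hw)⟩
  have hz1 := one_le_sz w
  have hz0 : (0 : ℝ) < sz w := by linarith
  have h1 : τ ^ 3 / (sz w : ℝ) ^ 24 = (τ * ((sz w : ℝ) ^ 8)⁻¹) ^ 3 := by
    rw [mul_pow, inv_pow, ← pow_mul, div_eq_mul_inv]
  rw [h1]
  apply pow_le_pow_left₀ (by positivity)
  exact mul_le_mul_of_nonneg_left (omega4_ge w) hτ.le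

theorem main_construction (m : ℕ) (I : Set ℝ) (hIo : IsOpen I) (hIc : I.OrdConnected)
    (h0 : (0 : ℝ) ∈ I) (f g : ℕ → ℝ → ℝ) (hf : ∀ k, AnalyticOnNhd ℝ (f k) I)
    (hg : ∀ k, AnalyticOnNhd ℝ (g k) I)
    (hrad : ∃ ρ : ℝ, 0 < ρ ∧ ∀ k, (Summable fun j => taylorCoeff (f k) j * ρ ^ j) ∧
      Summable fun j => taylorCoeff (g k) j * ρ ^ j)
    (hi : ∀ k : ℕ, ∀ a b c d : ℝ, (c ≠ 0 ∨ d ≠ 0) →
      ¬ ∀ z ∈ I, c * z + d ≠ 0 ∧ g k z = (a * z + b) / (c * z + d))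
    (hii : ∀ k₁ k₂ : ℕ, ∀ a b c d : ℝ, (c ≠ 0 ∨ d ≠ 0) →
      ¬ ∀ z ∈ I, c * g k₂ z + d ≠ 0 ∧ f k₁ z = (a * g k₂ z + b) / (c * g k₂ z + d)) :
    ∃ A : Matrix (Fin (m + 2)) (Fin (m + 2)) ℝ, IsLiouvilleMatrix A ∧
      ∀ k, ExtDefined (f k) A ∧ ExtDefined (g k) A ∧ IsLiouvilleMatrix (matExt (f k) A) ∧
        ¬ IsLiouvilleMatrix (matExt (g k) A) := by
  obtain ⟨ρ, hρ, hsum⟩ := hrad
  have hIp : IsPreconnected I := hIc.isPreconnected
  have hgc : ∀ k, ∀ c : ℝ, ¬ ∀ z ∈ I, g k z = c := by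
    intro k c hcon
    refine hi k 0 c 0 1 (Or.inr one_ne_zero) (fun z hz => ⟨by norm_num, ?_⟩)
    rw [hcon z hz]; norm_num
  have hfc : ∀ k, ∀ c : ℝ, ¬ ∀ z ∈ I, f k z = c := by
    intro k c hcon
    refine hii k 0 0 c 0 1 (Or.inr one_ne_zero) (fun z hz => ⟨by norm_num, ?_⟩)
    rw [hcon z hz]; norm_num
  have hidc : ∀ c : ℝ, ¬ ∀ z ∈ I, (fun x : ℝ => x) z = c := by
    intro c hcon
    obtain ⟨ε, hε, hball⟩ := Metric.isOpen_iff.mp hIo 0 h0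
    have h1 : (0 : ℝ) = c := hcon 0 h0
    have h2 : ε / 2 = c := hcon (ε / 2) (hball (by
      rw [Metric.mem_ball, Real.dist_eq, sub_zero, abs_of_pos (half_pos hε)]
      exact half_lt_self hε))
    linarith
  set J : Set ℝ := Ioo (-ρ) ρ with hJ
  have hJp : IsPreconnected J := isPreconnected_Ioo
  have h0J : (0 : ℝ) ∈ J := ⟨by linarith, hρ⟩
  have hJn : J ∈ 𝓝 (0 : ℝ) := isOpen_Ioo.mem_nhds h0J
  let h1 : ℕ → ℝ → ℝ := fun l => Nat.casesOn l (fun x => x) (fun l => tsumFun (f l))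
  let H0 : ℕ → ℝ := fun l => Nat.casesOn l 0 (fun l => taylorCoeff (f l) 0)
  have h1ana : ∀ l, AnalyticOnNhd ℝ (h1 l) J := by
    intro l
    cases l with
    | zero => exact fun x _ => analyticAt_id
    | succ l => exact tsumFun_analytic hρ (hsum l).1
  have g1ana : ∀ k, AnalyticOnNhd ℝ (tsumFun (g k)) J := fun k =>
    tsumFun_analytic hρ (hsum k).2
  have hLI : ∀ k l, ∀ a b c d : ℝ, (∀ z ∈ J, a + b * tsumFun (g k) z + c * h1 l z +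
      d * (tsumFun (g k) z * h1 l z) = 0) → a = 0 ∧ b = 0 ∧ c = 0 ∧ d = 0 := by
    intro k l
    cases l with
    | zero =>
      have hLI1 := LI_of_notmob hIo hIp h0 (g := fun x => x) (h := g k)
        (fun x _ => analyticAt_id) (hg k) hidc (hgc k) (hi k)
      have hLI2 : ∀ a b c d : ℝ, (∀ z ∈ I, a + b * g k z + c * (fun x : ℝ => x) z +
          d * (g k z * (fun x : ℝ => x) z) = 0) → a = 0 ∧ b = 0 ∧ c = 0 ∧ d = 0 := by
        intro a b c d hrel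
        obtain ⟨e1, e2, e3, e4⟩ := hLI1 a c b d (fun z hz => by
          have := hrel z hz
          simp only at this ⊢
          linear_combination this)
        exact ⟨e1, e3, e2, e4⟩
      exact LI_transfer hIp h0 hJn (hg k) (fun x _ => analyticAt_id) hLI2
        (tsumFun_eventuallyEq hρ (hsum k).2 (hg k 0 h0)) (Filter.Eventually.of_forall fun _ => rfl)
    | succ l =>
      have hLI1 := LI_of_notmob hIo hIp h0 (g := g k) (h := f l) (hg k) (hf l) (hgc k) (hfc l)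
        (hii l k)
      exact LI_transfer hIp h0 hJn (hg k) (hf l) hLI1
        (tsumFun_eventuallyEq hρ (hsum k).2 (hg k 0 h0))
        (tsumFun_eventuallyEq hρ (hsum l).1 (hf l 0 h0))
  -- null sets
  have hnull1 : ∀ k l, volume {x | x ∈ J ∧ ¬ ∃ τ : ℝ, 0 < τ ∧ ∀ w : ℤ × ℤ × ℤ × ℤ, w ≠ 0 →
      (τ * omega4 w) ^ 3 ≤ |comb (tsumFun (g k) x) (h1 l x) w|} = 0 := fun k l =>
    ae_good hJp (g1ana k) (h1ana l) (hLI k l)
  have hnull2 : ∀ l, volume {x | x ∈ J ∧ h1 l x - H0 l = 0} = 0 := by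
    intro l
    refine null_zero (φ := fun x => h1 l x - H0 l) (fun x hx => hx.2)
      (fun x hx => (h1ana l x hx.1).sub analyticAt_const) ?_
    rintro x ⟨hx, -⟩ hev
    have := LI_of_eventually hJp (g1ana 0) (h1ana l) (hLI 0 l) hx (a := -H0 l) (b := 0) (c := 1)
      (d := 0) (by
        filter_upwards [hev] with z hz
        linear_combination hz)
    exact one_ne_zero this.2.2.1
  obtain ⟨lam, hlamJ, hlam1, hlam2⟩ : ∃ lam ∈ J, (∀ k l, ∃ τ : ℝ, 0 < τ ∧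
      ∀ w : ℤ × ℤ × ℤ × ℤ, w ≠ 0 → (τ * omega4 w) ^ 3 ≤
        |comb (tsumFun (g k) lam) (h1 l lam) w|) ∧ ∀ l, h1 l lam ≠ H0 l := by
    by_contra hcon
    push Not at hcon
    have hsub : J ⊆ (⋃ k, ⋃ l, {x | x ∈ J ∧ ¬ ∃ τ : ℝ, 0 < τ ∧ ∀ w : ℤ × ℤ × ℤ × ℤ, w ≠ 0 →
        (τ * omega4 w) ^ 3 ≤ |comb (tsumFun (g k) x) (h1 l x) w|}) ∪
        ⋃ l, {x | x ∈ J ∧ h1 l x - H0 l = 0} := by
      intro x hx
      by_cases hall : ∀ k l, ∃ τ : ℝ, 0 < τ ∧ ∀ w : ℤ × ℤ × ℤ × ℤ, w ≠ 0 →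
        (τ * omega4 w) ^ 3 ≤ |comb (tsumFun (g k) x) (h1 l x) w|
      · right
        obtain ⟨l, hl⟩ := hcon x hx hall
        exact mem_iUnion.mpr ⟨l, hx, by rw [hl]; ring⟩
      · left
        rw [not_forall] at hall
        obtain ⟨k, hk⟩ := hall
        rw [not_forall] at hk
        obtain ⟨l, hl⟩ := hk
        exact mem_iUnion.mpr ⟨k, mem_iUnion.mpr ⟨l, hx, hl⟩⟩
    have hz : volume J = 0 := by
      refine measure_mono_null hsub ?_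
      rw [measure_union_null_iff]
      exact ⟨measure_iUnion_null fun k => measure_iUnion_null fun l => hnull1 k l,
        measure_iUnion_null hnull2⟩
    rw [hJ, Real.volume_Ioo, ENNReal.ofReal_eq_zero] at hz
    linarith
  obtain ⟨θ, s, hL, hD, hA⟩ := exists_theta_s (G := fun k => tsumFun (g k) lam)
    (H := fun l => h1 l lam) (H0 := H0)
    (fun k l => by
      obtain ⟨τ, hτ, hτ'⟩ := hlam1 k l
      exact dio_of_tau hτ hτ') hlam2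
  refine ⟨BM m θ s lam 0, liouville_of (hL 0) (hA 0), fun k => ?_⟩
  have e1 := BM_ext (m := m) hρ (hsum k).1 hlamJ θ s
  have e2 := BM_ext (m := m) hρ (hsum k).2 hlamJ θ s
  refine ⟨e1.summable, e2.summable, ?_, ?_⟩
  · unfold matExt
    rw [e1.tsum_eq]
    exact liouville_of (hL (k + 1)) (hA (k + 1))
  · unfold matExt
    rw [e2.tsum_eq]
    obtain ⟨c, hc, hc'⟩ := hD k
    exact not_liouville_of hc hc'

end Pool.Agent.MP_4d0c5f_nt
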