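import Pool.Agent.MP_4d0c5f_nt.NullSet

open MeasureTheory Set Filter Topology

namespace Pool.Agent.MP_4d0c5f_nt

lemma eventually_const {φ : ℝ → ℝ} {x : ℝ} (hd : ∀ᶠ z in 𝓝 x, HasDerivAt φ 0 z) :
    ∀ᶠ z in 𝓝 x, φ z = φ x := by
  obtain ⟨δ, hδ, hball⟩ := Metric.eventually_nhds_iff_ball.mp hd
  refine Metric.eventually_nhds_iff_ball.mpr ⟨δ, hδ, fun z hz => ?_⟩
  exact Metric.isOpen_ball.is_const_of_deriv_eq_zero (convex_ball x δ).isPreconnected
    (fun w hw => (hball w hw).differentiableAt.differentiableWithinAt)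
    (fun w hw => (hball w hw).deriv) hz (Metric.mem_ball_self hδ)

lemma null_zero {φ : ℝ → ℝ} {Z : Set ℝ} (hZ : ∀ x ∈ Z, φ x = 0)
    (hana : ∀ x ∈ Z, AnalyticAt ℝ φ x) (hne : ∀ x ∈ Z, ¬ ∀ᶠ z in 𝓝 x, φ z = 0) :
    volume Z = 0 := by
  refine measure_null_of_locally_null Z (fun x hx => ?_)
  refine ⟨{x}, ?_, by simp⟩
  have h1 := (hana x hx).eventually_eq_zero_or_eventually_ne_zero.resolve_left (hne x hx)
  rw [eventually_nhdsWithin_iff] at h1
  rw [mem_nhdsWithin_iff_exists_mem_nhds_inter]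
  refine ⟨_, h1, ?_⟩
  rintro z ⟨hz1, hz2⟩
  by_contra hzx
  exact hz1 hzx (hZ z hz2)

section

variable {J : Set ℝ} {g h : ℝ → ℝ}

lemma LI_of_eventually (hJp : IsPreconnected J)
    (hg : AnalyticOnNhd ℝ g J) (hh : AnalyticOnNhd ℝ h J)
    (hLI : ∀ a b c d : ℝ, (∀ z ∈ J, a + b * g z + c * h z + d * (g z * h z) = 0) →
      a = 0 ∧ b = 0 ∧ c = 0 ∧ d = 0) {x : ℝ} (hx : x ∈ J) {a b c d : ℝ}
    (hev : ∀ᶠ z in 𝓝 x, a + b * g z + c * h z + d * (g z * h z) = 0) :
    a = 0 ∧ b = 0 ∧ c = 0 ∧ d = 0 := by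
  apply hLI
  have hana : AnalyticOnNhd ℝ (fun z => a + b * g z + c * h z + d * (g z * h z)) J :=
    ((analyticOnNhd_const.add (analyticOnNhd_const.mul hg)).add
      (analyticOnNhd_const.mul hh)).add (analyticOnNhd_const.mul (hg.mul hh))
  intro z hz
  exact hana.eqOn_zero_of_preconnected_of_eventuallyEq_zero hJp hx hev hz

/-- first derived function -/
noncomputable def uf (g h : ℝ → ℝ) : ℝ → ℝ := fun x => deriv h x / deriv g x

/-- second derived function -/
noncomputable def yf (g h : ℝ → ℝ) : ℝ → ℝ := fun x => g x + 2 * deriv h x / deriv (uf g h) x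

lemma uf_analyticAt {x : ℝ} (hg : AnalyticAt ℝ g x) (hh : AnalyticAt ℝ h x)
    (h1 : deriv g x ≠ 0) : AnalyticAt ℝ (uf g h) x :=
  hh.deriv.div hg.deriv h1

lemma yf_analyticAt {x : ℝ} (hg : AnalyticAt ℝ g x) (hh : AnalyticAt ℝ h x)
    (h1 : deriv g x ≠ 0) (h2 : deriv (uf g h) x ≠ 0) : AnalyticAt ℝ (yf g h) x :=
  hg.add ((analyticAt_const.mul hh.deriv).div (uf_analyticAt hg hh h1).deriv h2)

lemma null1 (hJp : IsPreconnected J)
    (hg : AnalyticOnNhd ℝ g J) (hh : AnalyticOnNhd ℝ h J)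
    (hLI : ∀ a b c d : ℝ, (∀ z ∈ J, a + b * g z + c * h z + d * (g z * h z) = 0) →
      a = 0 ∧ b = 0 ∧ c = 0 ∧ d = 0) :
    volume {x | x ∈ J ∧ deriv g x = 0} = 0 := by
  refine null_zero (φ := deriv g) (fun x hx => hx.2) (fun x hx => (hg x hx.1).deriv) ?_
  rintro x ⟨hx, -⟩ hev
  have h1 : ∀ᶠ z in 𝓝 x, HasDerivAt g 0 z := by
    filter_upwards [hev, (hg x hx).eventually_analyticAt] with z hz hz'
    rw [← hz]; exact hz'.differentiableAt.hasDerivAt
  have h2 := eventually_const h1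
  have h3 := LI_of_eventually hJp hg hh hLI hx (a := -g x) (b := 1) (c := 0) (d := 0) (by
    filter_upwards [h2] with z hz
    rw [hz]; ring)
  exact one_ne_zero h3.2.1

lemma null2 (hJp : IsPreconnected J)
    (hg : AnalyticOnNhd ℝ g J) (hh : AnalyticOnNhd ℝ h J)
    (hLI : ∀ a b c d : ℝ, (∀ z ∈ J, a + b * g z + c * h z + d * (g z * h z) = 0) →
      a = 0 ∧ b = 0 ∧ c = 0 ∧ d = 0) :
    volume {x | x ∈ J ∧ deriv g x ≠ 0 ∧ deriv (uf g h) x = 0} = 0 := by
  refine null_zero (φ := deriv (uf g h)) (fun x hx => hx.2.2)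
    (fun x hx => (uf_analyticAt (hg x hx.1) (hh x hx.1) hx.2.1).deriv) ?_
  rintro x ⟨hx, hx1, -⟩ hev
  have hgne : ∀ᶠ z in 𝓝 x, deriv g z ≠ 0 :=
    (hg x hx).deriv.continuousAt.eventually_ne hx1
  have h1 : ∀ᶠ z in 𝓝 x, HasDerivAt (uf g h) 0 z := by
    filter_upwards [hev, (uf_analyticAt (hg x hx) (hh x hx) hx1).eventually_analyticAt]
      with z hz hz'
    rw [← hz]; exact hz'.differentiableAt.hasDerivAt
  have h2 := eventually_const h1
  set c := uf g h x with hc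
  have h3 : ∀ᶠ z in 𝓝 x, HasDerivAt (fun z => h z - c * g z) 0 z := by
    filter_upwards [h2, hgne, (hg x hx).eventually_analyticAt, (hh x hx).eventually_analyticAt]
      with z hz hz' hgz hhz
    have e1 := (hhz.differentiableAt.hasDerivAt).sub
      ((hgz.differentiableAt.hasDerivAt).const_mul c)
    refine e1.congr_deriv ?_
    rw [← hz]
    unfold uf
    field_simp
    ring
  have h4 := eventually_const h3
  have h5 := LI_of_eventually hJp hg hh hLI hx (a := -(h x - c * g x)) (b := -c) (c := 1)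
    (d := 0) (by
      filter_upwards [h4] with z hz
      linear_combination hz)
  exact one_ne_zero h5.2.2.1

lemma null3 (hJp : IsPreconnected J)
    (hg : AnalyticOnNhd ℝ g J) (hh : AnalyticOnNhd ℝ h J)
    (hLI : ∀ a b c d : ℝ, (∀ z ∈ J, a + b * g z + c * h z + d * (g z * h z) = 0) →
      a = 0 ∧ b = 0 ∧ c = 0 ∧ d = 0) :
    volume {x | x ∈ J ∧ deriv g x ≠ 0 ∧ deriv (uf g h) x ≠ 0 ∧ deriv (yf g h) x = 0} = 0 := by
  refine null_zero (φ := deriv (yf g h)) (fun x hx => hx.2.2.2)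
    (fun x hx => (yf_analyticAt (hg x hx.1) (hh x hx.1) hx.2.1 hx.2.2.1).deriv) ?_
  rintro x ⟨hx, hx1, hx2, -⟩ hev
  have hgne : ∀ᶠ z in 𝓝 x, deriv g z ≠ 0 :=
    (hg x hx).deriv.continuousAt.eventually_ne hx1
  have hua := uf_analyticAt (hg x hx) (hh x hx) hx1
  have hune : ∀ᶠ z in 𝓝 x, deriv (uf g h) z ≠ 0 :=
    hua.deriv.continuousAt.eventually_ne hx2
  have h1 : ∀ᶠ z in 𝓝 x, HasDerivAt (yf g h) 0 z := by
    filter_upwards [hev, (yf_analyticAt (hg x hx) (hh x hx) hx1 hx2).eventually_analyticAt]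
      with z hz hz'
    rw [← hz]; exact hz'.differentiableAt.hasDerivAt
  have h2 := eventually_const h1
  set c := yf g h x with hc
  have h3 : ∀ᶠ z in 𝓝 x, HasDerivAt (fun z => (g z - c) * uf g h z + h z) 0 z := by
    filter_upwards [h2, hgne, hune, (hg x hx).eventually_analyticAt,
      (hh x hx).eventually_analyticAt, hua.eventually_analyticAt]
      with z hz hz' hz'' hgz hhz huz
    have e1 := (((hgz.differentiableAt.hasDerivAt).sub_const c).mul
      huz.differentiableAt.hasDerivAt).add hhz.differentiableAt.hasDerivAt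
    refine e1.congr_deriv ?_
    have e2 : deriv g z * uf g h z = deriv h z := by
      unfold uf; field_simp
    have e3 : (c - g z) * deriv (uf g h) z = 2 * deriv h z := by
      rw [← hz]; unfold yf; field_simp; ring
    linear_combination e2 - e3
  have h4 := eventually_const h3
  set d := (g x - c) * uf g h x + h x with hd
  have h5 : ∀ᶠ z in 𝓝 x, HasDerivAt (fun z => (g z - c) * (h z - d)) 0 z := by
    filter_upwards [h4, hgne, (hg x hx).eventually_analyticAt,
      (hh x hx).eventually_analyticAt]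
      with z hz hz' hgz hhz
    have e1 := ((hgz.differentiableAt.hasDerivAt).sub_const c).mul
      ((hhz.differentiableAt.hasDerivAt).sub_const d)
    refine e1.congr_deriv ?_
    have e2 : deriv g z * uf g h z = deriv h z := by
      unfold uf; field_simp
    rw [← hz]
    linear_combination (c - g z) * e2
  have h6 := eventually_const h5
  have h7 := LI_of_eventually hJp hg hh hLI hx (a := c * d - (g x - c) * (h x - d)) (b := -d)
    (c := -c) (d := 1) (by
      filter_upwards [h6] with z hz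
      linear_combination hz)
  exact one_ne_zero h7.2.2.2

lemma good_local {x0 : ℝ} (hg : AnalyticAt ℝ g x0) (hh : AnalyticAt ℝ h x0)
    (h1 : deriv g x0 ≠ 0) (h2 : deriv (uf g h) x0 ≠ 0) (h3 : deriv (yf g h) x0 ≠ 0) :
    ∃ δ > 0, volume {x | x ∈ Metric.ball x0 δ ∧ ∀ τ : ℝ, 0 < τ → ∃ w : ℤ × ℤ × ℤ × ℤ, w ≠ 0 ∧
      |comb (g x) (h x) w| < (τ * omega4 w) ^ 3} = 0 := by
  have hua := uf_analyticAt hg hh h1
  have hya := yf_analyticAt hg hh h1 h2
  have k1 : ∀ᶠ z in 𝓝 x0, |deriv g x0| / 2 < |deriv g z| :=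
    hg.deriv.continuousAt.abs.eventually (lt_mem_nhds (half_lt_self (abs_pos.mpr h1)))
  have k2 : ∀ᶠ z in 𝓝 x0, |deriv (uf g h) x0| / 2 < |deriv (uf g h) z| :=
    hua.deriv.continuousAt.abs.eventually (lt_mem_nhds (half_lt_self (abs_pos.mpr h2)))
  have k3 : ∀ᶠ z in 𝓝 x0, |deriv (yf g h) x0| / 2 < |deriv (yf g h) z| :=
    hya.deriv.continuousAt.abs.eventually (lt_mem_nhds (half_lt_self (abs_pos.mpr h3)))
  have bound : ∀ φ : ℝ → ℝ, ContinuousAt φ x0 → ∀ᶠ z in 𝓝 x0, |φ z| < |φ x0| + 1 :=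
    fun φ hφ => hφ.abs.eventually (gt_mem_nhds (by linarith))
  have b1 := bound g hg.continuousAt
  have b2 := bound h hh.continuousAt
  have b3 := bound (uf g h) hua.continuousAt
  have b4 := bound (yf g h) hya.continuousAt
  have b5 := bound (fun z => h z + g z * uf g h z)
    (hh.continuousAt.add (hg.continuousAt.mul hua.continuousAt))
  have b6 := bound (fun z => g z * h z) (hg.continuousAt.mul hh.continuousAt)
  obtain ⟨δ, hδ, hball⟩ := Metric.eventually_nhds_iff_ball.mp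
    (hg.eventually_analyticAt.and (hh.eventually_analyticAt.and (hua.eventually_analyticAt.and
      (hya.eventually_analyticAt.and (k1.and (k2.and (k3.and (b1.and (b2.and (b3.and (b4.and
        (b5.and b6))))))))))))
  set S := Metric.ball x0 δ with hS
  have hSo : S.OrdConnected := by rw [hS, Real.ball_eq_Ioo]; exact ordConnected_Ioo
  set κ : ℝ := min (|deriv g x0| / 2) (min (|deriv (uf g h) x0| / 2) (|deriv (yf g h) x0| / 2))
  have hκ : 0 < κ := lt_min (half_pos (abs_pos.mpr h1))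
    (lt_min (half_pos (abs_pos.mpr h2)) (half_pos (abs_pos.mpr h3)))
  have kle1 : κ ≤ |deriv g x0| / 2 := min_le_left _ _
  have kle2 : κ ≤ |deriv (uf g h) x0| / 2 := (min_le_right _ _).trans (min_le_left _ _)
  have kle3 : κ ≤ |deriv (yf g h) x0| / 2 := (min_le_right _ _).trans (min_le_right _ _)
  set M : ℝ := 1 + |g x0| + |h x0| + |uf g h x0| + |yf g h x0| + |h x0 + g x0 * uf g h x0|
    + |g x0 * h x0|
  have n1 := abs_nonneg (g x0)
  have n2 := abs_nonneg (h x0)
  have n3 := abs_nonneg (uf g h x0)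
  have n4 := abs_nonneg (yf g h x0)
  have n5 := abs_nonneg (h x0 + g x0 * uf g h x0)
  have n6 := abs_nonneg (g x0 * h x0)
  have hM1 : 1 ≤ M := by linarith
  have hgd : ∀ x ∈ S, deriv g x ≠ 0 := by
    intro x hx
    obtain ⟨-, -, -, -, q1, -⟩ := hball x hx
    have := half_pos (abs_pos.mpr h1)
    exact abs_pos.mp (by linarith)
  have hud : ∀ x ∈ S, deriv (uf g h) x ≠ 0 := by
    intro x hx
    obtain ⟨-, -, -, -, -, q1, -⟩ := hball x hx
    have := half_pos (abs_pos.mpr h2)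
    exact abs_pos.mp (by linarith)
  obtain ⟨C, -, hC⟩ := local_bound (S := S) hSo (g := g) (h := h) (u := uf g h) (y := yf g h)
    (g' := deriv g) (u' := deriv (uf g h)) (y' := deriv (yf g h)) hκ hM1
    (fun x hx => (hball x hx).1.differentiableAt.hasDerivAt)
    (fun x hx => by
      have e := (hball x hx).2.1.differentiableAt.hasDerivAt
      refine e.congr_deriv ?_
      have := hgd x hx
      unfold uf; field_simp)
    (fun x hx => (hball x hx).2.2.1.differentiableAt.hasDerivAt)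
    (fun x hx => by
      have e1 := hgd x hx
      have e2 := hud x hx
      have e3 : deriv g x * uf g h x = deriv h x := by unfold uf; field_simp
      rw [e3]; unfold yf; field_simp; ring)
    (fun x hx => (hball x hx).2.2.2.1.differentiableAt.hasDerivAt)
    (fun x hx => by
      obtain ⟨-, -, -, -, q1, -⟩ := hball x hx; linarith)
    (fun x hx => by
      obtain ⟨-, -, -, -, -, q1, -⟩ := hball x hx; linarith)
    (fun x hx => by
      obtain ⟨-, -, -, -, -, -, q1, -⟩ := hball x hx; linarith)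
    (fun x hx => by
      obtain ⟨-, -, -, -, -, -, -, q1, -⟩ := hball x hx; linarith)
    (fun x hx => by
      obtain ⟨-, -, -, -, -, -, -, -, q1, -⟩ := hball x hx; linarith)
    (fun x hx => by
      obtain ⟨-, -, -, -, -, -, -, -, -, q1, -⟩ := hball x hx; linarith)
    (fun x hx => by
      obtain ⟨-, -, -, -, -, -, -, -, -, -, q1, -⟩ := hball x hx; linarith)
    (fun x hx => by
      obtain ⟨-, -, -, -, -, -, -, -, -, -, -, q1, -⟩ := hball x hx; linarith)
    (fun x hx => by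
      obtain ⟨-, -, -, -, -, -, -, -, -, -, -, -, q1⟩ := hball x hx; linarith)
  exact ⟨δ, hδ, null_of_bound hC⟩

/-- Almost every point of `J` is Diophantine for the pair `(g, h)`. -/
theorem ae_good (hJp : IsPreconnected J)
    (hg : AnalyticOnNhd ℝ g J) (hh : AnalyticOnNhd ℝ h J)
    (hLI : ∀ a b c d : ℝ, (∀ z ∈ J, a + b * g z + c * h z + d * (g z * h z) = 0) →
      a = 0 ∧ b = 0 ∧ c = 0 ∧ d = 0) :
    volume {x | x ∈ J ∧ ¬ ∃ τ : ℝ, 0 < τ ∧ ∀ w : ℤ × ℤ × ℤ × ℤ, w ≠ 0 →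
      (τ * omega4 w) ^ 3 ≤ |comb (g x) (h x) w|} = 0 := by
  set B := {x | x ∈ J ∧ ¬ ∃ τ : ℝ, 0 < τ ∧ ∀ w : ℤ × ℤ × ℤ × ℤ, w ≠ 0 →
      (τ * omega4 w) ^ 3 ≤ |comb (g x) (h x) w|} with hB
  set G := {x | x ∈ B ∧ deriv g x ≠ 0 ∧ deriv (uf g h) x ≠ 0 ∧ deriv (yf g h) x ≠ 0} with hG
  have hG0 : volume G = 0 := by
    refine measure_null_of_locally_null G (fun x hx => ?_)
    obtain ⟨hxB, hx1, hx2, hx3⟩ := hx
    obtain ⟨δ, hδ, hδ'⟩ := good_local (hg x hxB.1) (hh x hxB.1) hx1 hx2 hx3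
    refine ⟨Metric.ball x δ ∩ G, ?_, ?_⟩
    · rw [inter_comm]
      exact inter_mem_nhdsWithin G (Metric.ball_mem_nhds x hδ)
    · refine measure_mono_null ?_ hδ'
      rintro z ⟨hz1, hz2⟩
      refine ⟨hz1, ?_⟩
      intro τ hτ
      by_contra hcon
      push Not at hcon
      exact hz2.1.2 ⟨τ, hτ, hcon⟩
  have hsub : B ⊆ {x | x ∈ J ∧ deriv g x = 0} ∪
      ({x | x ∈ J ∧ deriv g x ≠ 0 ∧ deriv (uf g h) x = 0} ∪
      ({x | x ∈ J ∧ deriv g x ≠ 0 ∧ deriv (uf g h) x ≠ 0 ∧ deriv (yf g h) x = 0} ∪ G)) := by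
    intro x hx
    by_cases c1 : deriv g x = 0
    · exact Or.inl ⟨hx.1, c1⟩
    by_cases c2 : deriv (uf g h) x = 0
    · exact Or.inr (Or.inl ⟨hx.1, c1, c2⟩)
    by_cases c3 : deriv (yf g h) x = 0
    · exact Or.inr (Or.inr (Or.inl ⟨hx.1, c1, c2, c3⟩))
    · exact Or.inr (Or.inr (Or.inr ⟨hx, c1, c2, c3⟩))
  refine measure_mono_null hsub ?_
  rw [measure_union_null_iff, measure_union_null_iff, measure_union_null_iff]
  exact ⟨null1 hJp hg hh hLI, null2 hJp hg hh hLI, null3 hJp hg hh hLI, hG0⟩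

end

end Pool.Agent.MP_4d0c5f_nt
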