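import Pool.Agent.MP_4d0c5f_nt.Sublevel

open MeasureTheory Set Filter Topology

namespace Pool.Agent.MP_4d0c5f_nt

lemma local_bound {S : Set ℝ} (hS : S.OrdConnected) {g h u y g' u' y' : ℝ → ℝ} {κ M : ℝ}
    (hκ : 0 < κ) (hM : 1 ≤ M)
    (hg : ∀ x ∈ S, HasDerivAt g (g' x) x)
    (hh : ∀ x ∈ S, HasDerivAt h (u x * g' x) x)
    (hu : ∀ x ∈ S, HasDerivAt u (u' x) x)
    (hrel : ∀ x ∈ S, u' x * y x = 2 * (g' x * u x) + g x * u' x)
    (hy : ∀ x ∈ S, HasDerivAt y (y' x) x)
    (kg : ∀ x ∈ S, κ ≤ |g' x|) (ku : ∀ x ∈ S, κ ≤ |u' x|) (ky : ∀ x ∈ S, κ ≤ |y' x|)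
    (bg : ∀ x ∈ S, |g x| ≤ M) (bh : ∀ x ∈ S, |h x| ≤ M) (bu : ∀ x ∈ S, |u x| ≤ M)
    (by' : ∀ x ∈ S, |y x| ≤ M) (bv : ∀ x ∈ S, |h x + g x * u x| ≤ M)
    (bgh : ∀ x ∈ S, |g x * h x| ≤ M) :
    ∃ C : ℝ, 0 ≤ C ∧ ∀ a b c d : ℝ, (1 ≤ |a| ∨ 1 ≤ |b| ∨ 1 ≤ |c| ∨ 1 ≤ |d|) →
      ∀ ε : ℝ, 0 < ε → ε ≤ 1 / 2 →
        volume {x | x ∈ S ∧ |a + b * g x + c * h x + d * (g x * h x)| < ε ^ 3} ≤
          ENNReal.ofReal (C * ε) := by
  have hM0 : 0 < M := by linarith
  set c1 : ℝ := 1 / (8 * M) with hc1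
  set c2 : ℝ := 1 / (32 * M ^ 2) with hc2
  set c3 : ℝ := 1 / (128 * M ^ 3) with hc3
  have hc1p : 0 < c1 := by positivity
  have hc2p : 0 < c2 := by positivity
  have hc3p : 0 < c3 := by positivity
  have e12 : M * c2 = c1 / 4 := by rw [hc1, hc2]; field_simp; norm_num
  have e23 : M * c3 = c2 / 4 := by rw [hc2, hc3]; field_simp; norm_num
  have e01 : M * c1 = 1 / 8 := by rw [hc1]; field_simp
  have c1le : c1 ≤ 1 / 8 := by
    have : c1 ≤ M * c1 := by nlinarith
    linarith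
  have c2le : c2 ≤ c1 / 4 := by
    have : c2 ≤ M * c2 := by nlinarith
    linarith
  have c3le : c3 ≤ c2 / 4 := by
    have : c3 ≤ M * c3 := by nlinarith
    linarith
  refine ⟨(2 / (κ * c3) + 4 / κ + 8 / κ) + (4 / (κ * c2) + 4 / κ) + 4 / (κ * c1),
    by positivity, ?_⟩
  intro a b c d hmax ε hε hε2
  set F0 : ℝ → ℝ := fun x => a + b * g x + c * h x + d * (g x * h x) with hF0
  set F1 : ℝ → ℝ := fun x => b + c * u x + d * (h x + g x * u x) with hF1
  set F2 : ℝ → ℝ := fun x => c + d * y x with hF2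
  have D0 : ∀ x ∈ S, HasDerivAt F0 (g' x * F1 x) x := by
    intro x hx
    have := (((hg x hx).const_mul b).const_add a).add ((hh x hx).const_mul c) |>.add
      (((hg x hx).mul (hh x hx)).const_mul d)
    refine this.congr_deriv ?_
    simp only [hF1]; ring
  have D1 : ∀ x ∈ S, HasDerivAt F1 (u' x * F2 x) x := by
    intro x hx
    have := (((hu x hx).const_mul c).const_add b).add
      (((hh x hx).add ((hg x hx).mul (hu x hx))).const_mul d)
    refine this.congr_deriv ?_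
    simp only [hF2]
    have := hrel x hx
    linear_combination -d * this
  have D2 : ∀ x ∈ S, HasDerivAt F2 (y' x * d) x := by
    intro x hx
    have := ((hy x hx).const_mul d).const_add c
    refine this.congr_deriv ?_
    ring
  set T : ℝ := max (max |a| |b|) (max |c| |d|) with hT
  have hTa : |a| ≤ T := (le_max_left _ _).trans (le_max_left _ _)
  have hTb : |b| ≤ T := (le_max_right _ _).trans (le_max_left _ _)
  have hTc : |c| ≤ T := (le_max_left _ _).trans (le_max_right _ _)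
  have hTd : |d| ≤ T := (le_max_right _ _).trans (le_max_right _ _)
  have hT1 : 1 ≤ T := by rcases hmax with h | h | h | h <;> linarith
  have hε3 : ε ^ 3 ≤ ε := by nlinarith [sq_nonneg ε, mul_pos hε hε]
  have hε31 : ε ^ 3 ≤ 1 / 8 := by
    have : ε ^ 3 ≤ (1 / 2) ^ 3 := pow_le_pow_left₀ hε.le hε2 3
    norm_num at this ⊢; linarith
  have big : ∀ X : ℝ, X ≤ ((2 / (κ * c3) + 4 / κ + 8 / κ) + (4 / (κ * c2) + 4 / κ)
      + 4 / (κ * c1)) * ε → ENNReal.ofReal X ≤ ENNReal.ofReal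
        (((2 / (κ * c3) + 4 / κ + 8 / κ) + (4 / (κ * c2) + 4 / κ) + 4 / (κ * c1)) * ε) :=
    fun X hX => ENNReal.ofReal_le_ofReal hX
  have p1 : 0 ≤ (2 / (κ * c3) + 4 / κ + 8 / κ) * ε := by positivity
  have p2 : 0 ≤ (4 / (κ * c2) + 4 / κ) * ε := by positivity
  have p3 : 0 ≤ 4 / (κ * c1) * ε := by positivity
  change volume {x | x ∈ S ∧ |F0 x| < ε ^ 3} ≤ _
  by_cases k3 : c3 * T ≤ |d|
  · have h3 : c3 ≤ |d| := le_trans (le_mul_of_one_le_right hc3p.le hT1) k3
    refine (chain3 hS hκ D0 D1 D2 kg ku ky (τ1 := ε ^ 2) (τ2 := ε) (τ3 := c3) (by positivity)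
      hε hc3p h3 (ε ^ 3)).trans ?_
    have t2 : (2 : ENNReal) = ENNReal.ofReal 2 := by norm_num
    rw [t2, ← ENNReal.ofReal_mul (by norm_num), ← ENNReal.ofReal_add (by positivity) (by positivity),
      ← ENNReal.ofReal_mul (by norm_num), ← ENNReal.ofReal_add (by positivity) (by positivity)]
    refine big _ ?_
    have : 2 * ε / (κ * c3) + 2 * (2 * ε ^ 2 / (κ * ε) + 2 * (2 * ε ^ 3 / (κ * ε ^ 2)))
        = (2 / (κ * c3) + 4 / κ + 8 / κ) * ε := by field_simp; ring
    have r3 : ((2 / (κ * c3) + 4 / κ + 8 / κ) + (4 / (κ * c2) + 4 / κ) + 4 / (κ * c1)) * ε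
      = (2 / (κ * c3) + 4 / κ + 8 / κ) * ε + (4 / (κ * c2) + 4 / κ) * ε + 4 / (κ * c1) * ε := by
      ring
    rw [this, r3]; linarith
  push Not at k3
  by_cases k2 : c2 * T ≤ |c|
  · have h2 : ∀ x ∈ S, c2 / 2 ≤ |F2 x| := by
      intro x hx
      have q1 : |c| ≤ |F2 x| + |d * y x| := by
        have := abs_sub (F2 x) (d * y x)
        simp only [hF2] at this ⊢
        have e : c + d * y x - d * y x = c := by ring
        rw [e] at this; exact this
      have q2 : |d * y x| ≤ c3 * T * M := by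
        rw [abs_mul]
        exact mul_le_mul k3.le (by' x hx) (abs_nonneg _) (by positivity)
      have q3 : c3 * T * M = c2 / 4 * T := by rw [← e23]; ring
      have q8 : c2 ≤ c2 * T := le_mul_of_one_le_right hc2p.le hT1
      linarith
    refine (chain2 hS hκ D0 D1 kg ku (τ1 := ε) (τ2 := c2 / 2) hε (by positivity)
      h2 (ε ^ 3)).trans ?_
    have t2 : (2 : ENNReal) = ENNReal.ofReal 2 := by norm_num
    rw [t2, ← ENNReal.ofReal_mul (by norm_num), ← ENNReal.ofReal_add (by positivity) (by positivity)]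
    refine big _ ?_
    have : 2 * ε / (κ * (c2 / 2)) + 2 * (2 * ε ^ 3 / (κ * ε))
        = 4 / (κ * c2) * ε + 4 / κ * (ε ^ 2) := by field_simp; norm_num
    rw [this]
    have r1 : 4 / κ * (ε ^ 2) ≤ 4 / κ * ε := by
      apply mul_le_mul_of_nonneg_left _ (by positivity)
      nlinarith
    have r2 : (4 / (κ * c2) + 4 / κ) * ε = 4 / (κ * c2) * ε + 4 / κ * ε := by ring
    have r3 : ((2 / (κ * c3) + 4 / κ + 8 / κ) + (4 / (κ * c2) + 4 / κ) + 4 / (κ * c1)) * ε
      = (2 / (κ * c3) + 4 / κ + 8 / κ) * ε + (4 / (κ * c2) + 4 / κ) * ε + 4 / (κ * c1) * ε := by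
      ring
    rw [r3]
    linarith
  push Not at k2
  by_cases k1 : c1 * T ≤ |b|
  · have h1 : ∀ x ∈ S, c1 / 2 ≤ |F1 x| := by
      intro x hx
      have q1 : |b| ≤ |F1 x| + |c * u x| + |d * (h x + g x * u x)| := by
        have e : b = F1 x - c * u x - d * (h x + g x * u x) := by simp only [hF1]; ring
        calc |b| = |F1 x - c * u x - d * (h x + g x * u x)| := by rw [← e]
          _ ≤ |F1 x - c * u x| + |d * (h x + g x * u x)| := abs_sub _ _
          _ ≤ _ := by linarith [abs_sub (F1 x) (c * u x)]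
      have q2 : |d * (h x + g x * u x)| ≤ c3 * T * M := by
        rw [abs_mul]
        exact mul_le_mul k3.le (bv x hx) (abs_nonneg _) (by positivity)
      have q4 : |c * u x| ≤ c2 * T * M := by
        rw [abs_mul]
        exact mul_le_mul k2.le (bu x hx) (abs_nonneg _) (by positivity)
      have q3 : c3 * T * M = c2 / 4 * T := by rw [← e23]; ring
      have q5 : c2 * T * M = c1 / 4 * T := by rw [← e12]; ring
      have q8 : c1 ≤ c1 * T := le_mul_of_one_le_right hc1p.le hT1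
      have q9 : c2 * T ≤ c1 / 4 * T := mul_le_mul_of_nonneg_right c2le (by linarith)
      linarith
    refine (chain1 hS hκ D0 kg (τ1 := c1 / 2) (by positivity) h1 (ε ^ 3)).trans ?_
    refine big _ ?_
    have : 2 * ε ^ 3 / (κ * (c1 / 2)) = 4 / (κ * c1) * ε ^ 3 := by field_simp; norm_num
    rw [this]
    have r1 : 4 / (κ * c1) * (ε ^ 3) ≤ 4 / (κ * c1) * ε := by
      apply mul_le_mul_of_nonneg_left hε3 (by positivity)
    have r3 : ((2 / (κ * c3) + 4 / κ + 8 / κ) + (4 / (κ * c2) + 4 / κ) + 4 / (κ * c1)) * ε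
      = (2 / (κ * c3) + 4 / κ + 8 / κ) * ε + (4 / (κ * c2) + 4 / κ) * ε + 4 / (κ * c1) * ε := by
      ring
    rw [r3]
    linarith
  push Not at k1
  have hTa' : T = |a| := by
    have hTne : ∀ z : ℝ, z < T → z ≠ T := fun z hz => ne_of_lt hz
    have hTp : 0 < T := by linarith
    have hb : |b| < T := lt_of_lt_of_le k1 (mul_le_of_le_one_left hTp.le (by linarith))
    have hc : |c| < T := lt_of_lt_of_le k2 (mul_le_of_le_one_left hTp.le (by linarith))
    have hd : |d| < T := lt_of_lt_of_le k3 (mul_le_of_le_one_left hTp.le (by linarith))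
    rcases max_choice (max |a| |b|) (max |c| |d|) with h1 | h1
    · rcases max_choice |a| |b| with h2 | h2
      · rw [hT, h1, h2]
      · rw [← hT, h2] at h1; linarith
    · rcases max_choice |c| |d| with h2 | h2
      · rw [← hT, h2] at h1; linarith
      · rw [← hT, h2] at h1; linarith
  have hempty : {x | x ∈ S ∧ |F0 x| < ε ^ 3} = ∅ := by
    ext x
    simp only [mem_ofPred_eq, mem_empty_iff_false, iff_false, not_and, not_lt]
    intro hx
    have q1 : |a| ≤ |F0 x| + |b * g x| + |c * h x| + |d * (g x * h x)| := by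
      have e : a = F0 x - b * g x - c * h x - d * (g x * h x) := by simp only [hF0]; ring
      calc |a| = |F0 x - b * g x - c * h x - d * (g x * h x)| := by rw [← e]
        _ ≤ |F0 x - b * g x - c * h x| + |d * (g x * h x)| := abs_sub _ _
        _ ≤ |F0 x - b * g x| + |c * h x| + |d * (g x * h x)| := by
            linarith [abs_sub (F0 x - b * g x) (c * h x)]
        _ ≤ _ := by linarith [abs_sub (F0 x) (b * g x)]
    have q2 : |d * (g x * h x)| ≤ c3 * T * M := by
      rw [abs_mul]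
      exact mul_le_mul k3.le (bgh x hx) (abs_nonneg _) (by positivity)
    have q4 : |c * h x| ≤ c2 * T * M := by
      rw [abs_mul]
      exact mul_le_mul k2.le (bh x hx) (abs_nonneg _) (by positivity)
    have q6 : |b * g x| ≤ c1 * T * M := by
      rw [abs_mul]
      exact mul_le_mul k1.le (bg x hx) (abs_nonneg _) (by positivity)
    have q3 : c3 * T * M = c2 / 4 * T := by rw [← e23]; ring
    have q5 : c2 * T * M = c1 / 4 * T := by rw [← e12]; ring
    have q7 : c1 * T * M = 1 / 8 * T := by rw [← e01]; ring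
    have q8 : c2 / 4 * T ≤ 1 / 8 * T := mul_le_mul_of_nonneg_right (by linarith) (by linarith)
    have q9 : c1 / 4 * T ≤ 1 / 8 * T := mul_le_mul_of_nonneg_right (by linarith) (by linarith)
    linarith
  rw [hempty, measure_empty]
  exact bot_le

end Pool.Agent.MP_4d0c5f_nt
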