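import Pool.Agent.MP_4d0c5f_nt.Mobius
import Pool.Agent.MP_4d0c5f_nt.Exist

open Set Filter Topology

namespace Pool.Agent.MP_4d0c5f_nt

variable {m : ℕ}

/-- right factor -/
def av (m : ℕ) (θ : ℝ) : Fin (m + 2) → ℝ := fun i => if i = 0 then -θ else if i = 1 then 1 else 0

/-- left factor -/
def cv (m : ℕ) (θ s : ℝ) : Fin (m + 2) → ℝ :=
  fun i => if i = 0 then -s else if i = 1 then 1 - s * θ else 0

lemma sum_two {f : Fin (m + 2) → ℝ} (hf : ∀ i, i ≠ 0 → i ≠ 1 → f i = 0) :
    ∑ i, f i = f 0 + f 1 := by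
  rw [Fin.sum_univ_succ, Fin.sum_univ_succ]
  have h1 : ∑ i : Fin m, f i.succ.succ = 0 := by
    refine Finset.sum_eq_zero (fun i _ => hf _ (Fin.succ_ne_zero _) ?_)
    intro h
    have := congrArg Fin.val h
    simp at this
  rw [h1]
  simp

lemma cv_dot (θ s : ℝ) (q : Fin (m + 2) → ℝ) :
    cv m θ s ⬝ᵥ q = -s * q 0 + (1 - s * θ) * q 1 := by
  unfold dotProduct
  rw [sum_two]
  · simp [cv]
  · intro i h0 h1
    simp [cv, h0, h1]

/-- the rank one idempotent -/
def PM (m : ℕ) (θ s : ℝ) : Matrix (Fin (m + 2)) (Fin (m + 2)) ℝ :=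
  Matrix.vecMulVec (av m θ) (cv m θ s)

lemma PM_mul_PM (θ s : ℝ) : PM m θ s * PM m θ s = PM m θ s := by
  unfold PM
  rw [Matrix.vecMulVec_mul_vecMulVec, cv_dot]
  have : -s * av m θ 0 + (1 - s * θ) * av m θ 1 = 1 := by
    simp [av]
  rw [this]
  simp

/-- the matrices used in the construction -/
def BM (m : ℕ) (θ s η η0 : ℝ) : Matrix (Fin (m + 2)) (Fin (m + 2)) ℝ :=
  η • (1 - PM m θ s) + η0 • PM m θ s

lemma BM_mulVec (θ s η η0 : ℝ) (q : Fin (m + 2) → ℝ) (i : Fin (m + 2)) :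
    (BM m θ s η η0).mulVec q i =
      η * q i + (η0 - η) * (-s * q 0 + (1 - s * θ) * q 1) * av m θ i := by
  unfold BM PM
  rw [Matrix.add_mulVec, Matrix.smul_mulVec, Matrix.smul_mulVec, Matrix.sub_mulVec,
    Matrix.one_mulVec, Matrix.vecMulVec_mulVec, cv_dot]
  simp only [Pi.add_apply, Pi.smul_apply, Pi.sub_apply, smul_eq_mul, MulOpposite.smul_eq_mul_unop,
    MulOpposite.unop_op]
  ring

lemma BM_pow (θ s η : ℝ) (j : ℕ) :
    (BM m θ s η 0) ^ j = (η ^ j) • (1 - PM m θ s) + ((0 : ℝ) ^ j) • PM m θ s := by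
  have hP := PM_mul_PM (m := m) θ s
  induction j with
  | zero => simp
  | succ j ih =>
    rw [pow_succ, ih]
    unfold BM
    rw [zero_smul, add_zero, add_mul, smul_mul_smul_comm, smul_mul_smul_comm]
    have e1 : (1 - PM m θ s) * (1 - PM m θ s) = 1 - PM m θ s := by
      rw [mul_sub, sub_mul, sub_mul, hP]; simp
    have e2 : PM m θ s * (1 - PM m θ s) = 0 := by
      rw [mul_sub, hP]; simp
    rw [e1, e2]
    simp [pow_succ]

lemma BM_ext {f : ℝ → ℝ} {ρ lam : ℝ} (hρ : 0 < ρ)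
    (hs : Summable fun j => taylorCoeff f j * ρ ^ j) (hlam : lam ∈ Ioo (-ρ) ρ) (θ s : ℝ) :
    HasSum (fun j : ℕ => taylorCoeff f j • (BM m θ s lam 0) ^ j)
      (BM m θ s (tsumFun f lam) (taylorCoeff f 0)) := by
  have h1 := (tsumFun_hasSum hρ hs hlam).smul_const (1 - PM m θ s)
  have h2 : HasSum (fun j : ℕ => taylorCoeff f j * (0 : ℝ) ^ j) (taylorCoeff f 0) := by
    have := hasSum_single (f := fun j : ℕ => taylorCoeff f j * (0 : ℝ) ^ j) 0 (by
      intro j hj
      simp [hj])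
    simpa using this
  have h3 := h2.smul_const (PM m θ s)
  have h4 := h1.add h3
  convert! h4 using 1
  ext1 j
  rw [BM_pow, smul_add, smul_smul, smul_smul]

lemma liouville_of {θ s η η0 : ℝ}
    (hL : ∀ N : ℕ, ∃ (Q : ℕ) (P1 P2 : ℤ), 2 ≤ Q ∧
        |Q * (η - θ * ((η - η0) * s)) - P1| < 1 / (Q : ℝ) ^ N ∧
        |Q * ((η - η0) * s) - P2| < 1 / (Q : ℝ) ^ N)
    (hA : ∀ w : ℤ × ℤ × ℤ × ℤ, w ≠ 0 → lf η θ w ≠ 0) :
    IsLiouvilleMatrix (BM m θ s η η0) := by
  constructor
  · intro q p hqp hEq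
    have hcomp : ∀ i, η * q i + (η0 - η) * (-s * q 0 + (1 - s * θ) * q 1) * av m θ i = p i := by
      intro i
      have := congrFun hEq i
      rwa [BM_mulVec] at this
    have e0 := hcomp 0
    have e1 := hcomp 1
    have h01 : (1 : Fin (m + 2)) ≠ 0 := by simp
    simp only [av, if_true] at e0
    simp only [av, if_true, h01, if_false] at e1
    have h1 : lf η θ (q 0, q 1, p 0, p 1) = 0 := by
      unfold lf
      simp only
      rw [← e0, ← e1]; ring
    have h2 : ((q 0, q 1, p 0, p 1) : ℤ × ℤ × ℤ × ℤ) = 0 := by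
      by_contra hne
      exact hA _ hne h1
    have h3 : q 0 = 0 ∧ q 1 = 0 ∧ p 0 = 0 ∧ p 1 = 0 := by
      simpa [Prod.ext_iff] using h2
    obtain ⟨q0, q1, p0, p1⟩ := h3
    have h4 : ∀ i, q i = 0 ∧ p i = 0 := by
      intro i
      have e := hcomp i
      rw [q0, q1] at e
      have h5 : lf η θ (q i, 0, p i, 0) = 0 := by
        unfold lf
        simp only [Int.cast_zero, mul_zero, add_zero] at e ⊢
        rw [← e]; ring
      have h6 : ((q i, 0, p i, 0) : ℤ × ℤ × ℤ × ℤ) = 0 := by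
        by_contra hne
        exact hA _ hne h5
      simpa [Prod.ext_iff] using h6
    rcases hqp with h | h
    · exact h (funext fun i => (h4 i).1)
    · exact h (funext fun i => (h4 i).2)
  · intro N hN
    obtain ⟨Q, P1, P2, hQ, h1, h2⟩ := hL ⌈N⌉₊
    have hQ2 : (2 : ℝ) ≤ Q := by exact_mod_cast hQ
    have hQ0 : (0 : ℝ) < Q := by linarith
    refine ⟨fun i => if i = 0 then P1 else if i = 1 then P2 else 0,
      fun i => if i = 0 then (Q : ℤ) else 0, ?_, ?_⟩
    · have : ‖(if (0 : Fin (m + 2)) = 0 then (Q : ℤ) else 0)‖ ≤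
        ‖(fun i : Fin (m + 2) => if i = 0 then (Q : ℤ) else 0)‖ :=
        norm_le_pi_norm (fun i : Fin (m + 2) => if i = 0 then (Q : ℤ) else 0) 0
      simp only [if_true] at this
      have hn : ‖(Q : ℤ)‖ = (Q : ℝ) := by
        rw [Int.norm_eq_abs]; push_cast; exact abs_of_pos hQ0
      rw [hn] at this
      linarith
    · have hqn : ‖(fun i : Fin (m + 2) => if i = 0 then (Q : ℤ) else 0)‖ ≤ Q := by
        refine (pi_norm_le_iff_of_nonneg hQ0.le).mpr (fun i => ?_)
        by_cases hi : i = 0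
        · simp only [hi, if_true]
          rw [Int.norm_eq_abs]; push_cast; exact (abs_of_pos hQ0).le
        · simp [hi]
      have hqn' : (0 : ℝ) < ‖(fun i : Fin (m + 2) => if i = 0 then (Q : ℤ) else 0)‖ := by
        refine norm_pos_iff.mpr (fun h => ?_)
        have := congrFun h 0
        simp at this
        omega
      have hle : 1 / (Q : ℝ) ^ ⌈N⌉₊ ≤
          ‖(fun i : Fin (m + 2) => if i = 0 then (Q : ℤ) else 0)‖ ^ (-N) := by
        have a1 : (Q : ℝ) ^ (-N) ≤
            ‖(fun i : Fin (m + 2) => if i = 0 then (Q : ℤ) else 0)‖ ^ (-N) :=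
          Real.rpow_le_rpow_of_nonpos hqn' hqn (by linarith)
        have a2 : 1 / (Q : ℝ) ^ ⌈N⌉₊ ≤ (Q : ℝ) ^ (-N) := by
          rw [one_div, ← Real.rpow_natCast, ← Real.rpow_neg hQ0.le]
          apply Real.rpow_le_rpow_of_exponent_le (by linarith)
          have := Nat.le_ceil N
          linarith
        exact a2.trans a1
      have hpos : (0 : ℝ) < 1 / (Q : ℝ) ^ ⌈N⌉₊ := by positivity
      refine lt_of_lt_of_le ?_ hle
      rw [pi_norm_lt_iff hpos]
      intro i
      rw [Pi.sub_apply, BM_mulVec, Real.norm_eq_abs]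
      have h01 : (1 : Fin (m + 2)) ≠ 0 := by simp
      by_cases hi0 : i = 0
      · subst hi0
        simp only [if_true, h01, if_false, av]
        push_cast
        have e : η * (Q : ℝ) + (η0 - η) * (-s * Q + (1 - s * θ) * 0) * -θ - P1 =
          Q * (η - θ * ((η - η0) * s)) - P1 := by ring
        rw [e]
        exact h1
      · by_cases hi1 : i = 1
        · subst hi1
          simp only [if_true, h01, if_false, av]
          push_cast
          have e : η * (0 : ℝ) + (η0 - η) * (-s * Q + (1 - s * θ) * 0) * 1 - P2 =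
            Q * ((η - η0) * s) - P2 := by ring
          rw [e]
          exact h2
        · simp only [hi0, hi1, if_false, av]
          simp only [Int.cast_zero, mul_zero, add_zero, sub_zero, abs_zero]
          exact hpos

lemma not_liouville_of {E : ℕ} {θ s η η0 c : ℝ} (hc : 0 < c)
    (hD : ∀ w : ℤ × ℤ × ℤ × ℤ, w ≠ 0 → c / (sz w : ℝ) ^ E ≤ |lf η θ w|) :
    ¬ IsLiouvilleMatrix (BM m θ s η η0) := by
  rintro ⟨-, hb⟩
  set M : ℝ := |η| + |η0 - η| * (|s| + |1 - s * θ|) * (|θ| + 1) with hM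
  have hM0 : 0 ≤ M := by positivity
  set K : ℝ := 2 * M + 5 with hK
  have hK0 : 0 < K := by positivity
  obtain ⟨k, hkpos, hk⟩ : ∃ k : ℕ, 0 < k ∧ (1 + |θ|) * K ^ E / c < 2 ^ k := by
    obtain ⟨k, hk⟩ := pow_unbounded_of_one_lt ((1 + |θ|) * K ^ E / c) (one_lt_two (α := ℝ))
    refine ⟨k + 1, Nat.succ_pos k, hk.trans_le ?_⟩
    exact pow_le_pow_right₀ one_le_two (Nat.le_succ k)
  obtain ⟨p, q, hq, hlt⟩ := hb ((E + k : ℕ) : ℝ) (by
    have : 0 < E + k := by omega
    exact_mod_cast this)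
  have hq2 : 2 ≤ ‖q‖ := by
    by_contra hcon
    push Not at hcon
    have : ∀ i, q i = 0 ∨ q i = 1 ∨ q i = -1 := by
      intro i
      have h1 := (norm_le_pi_norm q i).trans_lt hcon
      rw [Int.norm_eq_abs] at h1
      have h2 : |q i| < 2 := by exact_mod_cast h1
      rw [abs_lt] at h2
      omega
    have : ‖q‖ ≤ 1 := by
      refine (pi_norm_le_iff_of_nonneg zero_le_one).mpr (fun i => ?_)
      rcases this i with h | h | h <;> rw [h] <;> simp
    linarith
  have hq0 : 0 < ‖q‖ := by linarith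
  rw [Real.rpow_neg hq0.le, Real.rpow_natCast] at hlt
  have hpow1 : 1 ≤ ‖q‖ ^ (E + k) := one_le_pow₀ (by linarith)
  have hinv : (‖q‖ ^ (E + k))⁻¹ ≤ 1 := inv_le_one_of_one_le₀ hpow1
  have hqi : ∀ i, |(q i : ℝ)| ≤ ‖q‖ := by
    intro i
    have := norm_le_pi_norm q i
    rwa [Int.norm_eq_abs] at this
  have hav : ∀ i, |av m θ i| ≤ |θ| + 1 := by
    intro i
    unfold av
    have := abs_nonneg θ
    split_ifs
    · rw [abs_neg]; linarith
    · rw [abs_one]; linarith
    · rw [abs_zero]; linarith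
  have hdiff : ∀ i, |(BM m θ s η η0).mulVec (fun i => (q i : ℝ)) i - p i| <
      (‖q‖ ^ (E + k))⁻¹ := by
    intro i
    have h1 := norm_le_pi_norm
      ((BM m θ s η η0).mulVec (fun i => (q i : ℝ)) - fun i => (p i : ℝ)) i
    rw [Pi.sub_apply, Real.norm_eq_abs] at h1
    exact lt_of_le_of_lt h1 hlt
  have hBq : ∀ i, |(BM m θ s η η0).mulVec (fun i => (q i : ℝ)) i| ≤ M * ‖q‖ := by
    intro i
    rw [BM_mulVec]
    have b1 : |(-s * (q 0 : ℝ) + (1 - s * θ) * q 1)| ≤ (|s| + |1 - s * θ|) * ‖q‖ := by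
      refine (abs_add_le _ _).trans ?_
      rw [abs_mul, abs_mul, abs_neg, add_mul]
      exact add_le_add (mul_le_mul_of_nonneg_left (hqi 0) (abs_nonneg _))
        (mul_le_mul_of_nonneg_left (hqi 1) (abs_nonneg _))
    refine (abs_add_le _ _).trans ?_
    rw [abs_mul, abs_mul, abs_mul, hM, add_mul]
    refine add_le_add (mul_le_mul_of_nonneg_left (hqi i) (abs_nonneg _)) ?_
    calc |η0 - η| * |(-s * (q 0 : ℝ) + (1 - s * θ) * q 1)| * |av m θ i|
        ≤ |η0 - η| * ((|s| + |1 - s * θ|) * ‖q‖) * (|θ| + 1) := by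
          apply mul_le_mul _ (hav i) (abs_nonneg _) (by positivity)
          exact mul_le_mul_of_nonneg_left b1 (abs_nonneg _)
      _ = |η0 - η| * (|s| + |1 - s * θ|) * (|θ| + 1) * ‖q‖ := by ring
  have hpi : ∀ i, |(p i : ℝ)| ≤ (M + 1) * ‖q‖ := by
    intro i
    have h1 := (hdiff i).le.trans hinv
    have h2 := hBq i
    have h3 : |(p i : ℝ)| ≤ |(BM m θ s η η0).mulVec (fun i => (q i : ℝ)) i| +
        |(BM m θ s η η0).mulVec (fun i => (q i : ℝ)) i - p i| := by
      have := abs_sub ((BM m θ s η η0).mulVec (fun i => (q i : ℝ)) i)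
        ((BM m θ s η η0).mulVec (fun i => (q i : ℝ)) i - p i)
      rwa [sub_sub_cancel] at this
    nlinarith
  -- find a good vector
  obtain ⟨w, hw, hw1, hw2⟩ : ∃ w : ℤ × ℤ × ℤ × ℤ, w ≠ 0 ∧
      |lf η θ w| ≤ (1 + |θ|) * (‖q‖ ^ (E + k))⁻¹ ∧ (sz w : ℝ) ≤ K * ‖q‖ := by
    have h01 : (1 : Fin (m + 2)) ≠ 0 := by simp
    by_cases hw : ((q 0, q 1, p 0, p 1) : ℤ × ℤ × ℤ × ℤ) ≠ 0
    · refine ⟨_, hw, ?_, ?_⟩
      · have d0 := hdiff 0
        have d1 := hdiff 1
        rw [BM_mulVec] at d0 d1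
        simp only [av, if_true, h01, if_false] at d0 d1
        have e : lf η θ (q 0, q 1, p 0, p 1) =
            (η * q 0 + (η0 - η) * (-s * q 0 + (1 - s * θ) * q 1) * -θ - p 0) +
            θ * (η * q 1 + (η0 - η) * (-s * q 0 + (1 - s * θ) * q 1) * 1 - p 1) := by
          unfold lf; ring
        rw [e]
        refine (abs_add_le _ _).trans ?_
        rw [abs_mul, add_mul, one_mul]
        exact add_le_add d0.le (mul_le_mul_of_nonneg_left d1.le (abs_nonneg _))
      · rw [sz_cast]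
        have := hqi 0
        have := hqi 1
        have := hpi 0
        have := hpi 1
        simp only
        rw [hK]
        nlinarith
    · push Not at hw
      have h3 : q 0 = 0 ∧ q 1 = 0 ∧ p 0 = 0 ∧ p 1 = 0 := by
        simpa [Prod.ext_iff] using hw
      obtain ⟨q0, q1, p0, p1⟩ := h3
      obtain ⟨i, hi⟩ : ∃ i, q i ≠ 0 := by
        by_contra hcon
        push Not at hcon
        have : q = 0 := funext hcon
        rw [this, norm_zero] at hq0
        exact lt_irrefl _ hq0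
      refine ⟨(q i, 0, p i, 0), ?_, ?_, ?_⟩
      · intro h
        apply hi
        simpa using congrArg Prod.fst h
      · have d0 := hdiff i
        rw [BM_mulVec, q0, q1] at d0
        have e : lf η θ (q i, 0, p i, 0) =
            η * q i + (η0 - η) * (-s * ((0 : ℤ) : ℝ) + (1 - s * θ) * ((0 : ℤ) : ℝ)) * av m θ i
              - p i := by
          unfold lf; simp
        rw [e]
        refine d0.le.trans ?_
        have : 0 ≤ |θ| * (‖q‖ ^ (E + k))⁻¹ := by positivity
        linarith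
      · rw [sz_cast]
        have := hqi i
        have := hpi i
        simp only [Int.cast_zero, abs_zero, add_zero]
        rw [hK]
        nlinarith
  have h1 := (hD w hw).trans hw1
  have hz1 := one_le_sz w
  have hz0 : (0 : ℝ) < sz w := by linarith
  have h2 : c / (K * ‖q‖) ^ E ≤ c / (sz w : ℝ) ^ E := by
    apply div_le_div_of_nonneg_left hc.le (by positivity)
    exact pow_le_pow_left₀ hz0.le hw2 _
  have h3 := h2.trans h1
  rw [div_le_iff₀ (by positivity)] at h3
  have h4 : (1 + |θ|) * (‖q‖ ^ (E + k))⁻¹ * (K * ‖q‖) ^ E = (1 + |θ|) * K ^ E / ‖q‖ ^ k := by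
    rw [pow_add, mul_pow]
    have : (‖q‖ ^ E) ≠ 0 := by positivity
    have : (‖q‖ ^ k) ≠ 0 := by positivity
    field_simp
  rw [h4, le_div_iff₀ (by positivity)] at h3
  rw [div_lt_iff₀ hc] at hk
  have h5 : (2 : ℝ) ^ k ≤ ‖q‖ ^ k := pow_le_pow_left₀ (by norm_num) hq2 k
  nlinarith

end Pool.Agent.MP_4d0c5f_nt
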