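import Pool.Agent.MP_4d0c5f_nt.Taylor

open Set Filter Topology

namespace Pool.Agent.MP_4d0c5f_nt

lemma eq_const_of_mul {I : Set ℝ} (hIo : IsOpen I) (hIp : IsPreconnected I) {g h : ℝ → ℝ}
    (hg : AnalyticOnNhd ℝ g I) (hh : AnalyticOnNhd ℝ h I)
    {α β γ δ : ℝ} (hrel : ∀ z ∈ I, (α + β * h z) * (γ + δ * g z) = 0) :
    (∀ z ∈ I, α + β * h z = 0) ∨ (∀ z ∈ I, γ + δ * g z = 0) := by
  by_cases h1 : ∀ z ∈ I, γ + δ * g z = 0
  · exact Or.inr h1
  · left
    push Not at h1
    obtain ⟨z1, hz1, hz1'⟩ := h1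
    have hcont : ContinuousAt (fun z => γ + δ * g z) z1 :=
      continuousAt_const.add (continuousAt_const.mul (hg z1 hz1).continuousAt)
    have hev : ∀ᶠ z in 𝓝 z1, γ + δ * g z ≠ 0 := hcont.eventually_ne hz1'
    have hana : AnalyticOnNhd ℝ (fun z => α + β * h z) I :=
      analyticOnNhd_const.add (analyticOnNhd_const.mul hh)
    have hfreq : ∀ᶠ z in 𝓝 z1, α + β * h z = 0 := by
      filter_upwards [hev, hIo.mem_nhds hz1] with z hz hzI
      exact (mul_eq_zero.mp (hrel z hzI)).resolve_right hz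
    intro z hz
    exact hana.eqOn_zero_of_preconnected_of_eventuallyEq_zero hIp hz1 hfreq hz

/-- Linear independence of `1, g, h, g h` when `h` is not a Moebius function of `g`. -/
lemma LI_of_notmob {I : Set ℝ} (hIo : IsOpen I) (hIp : IsPreconnected I) (h0 : (0 : ℝ) ∈ I)
    {g h : ℝ → ℝ} (hg : AnalyticOnNhd ℝ g I) (hh : AnalyticOnNhd ℝ h I)
    (hgc : ∀ c : ℝ, ¬ ∀ z ∈ I, g z = c) (hhc : ∀ c : ℝ, ¬ ∀ z ∈ I, h z = c)
    (hmob : ∀ a b c d : ℝ, (c ≠ 0 ∨ d ≠ 0) →
      ¬ ∀ z ∈ I, c * g z + d ≠ 0 ∧ h z = (a * g z + b) / (c * g z + d)) :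
    ∀ a b c d : ℝ, (∀ z ∈ I, a + b * g z + c * h z + d * (g z * h z) = 0) →
      a = 0 ∧ b = 0 ∧ c = 0 ∧ d = 0 := by
  intro a b c d hrel
  by_cases hcd : c = 0 ∧ d = 0
  · obtain ⟨rfl, rfl⟩ := hcd
    have hb : b = 0 := by
      by_contra hb
      refine hgc (-a / b) (fun z hz => ?_)
      have := hrel z hz
      field_simp
      linarith
    subst hb
    have := hrel 0 h0
    refine ⟨by linarith, rfl, rfl, rfl⟩
  · exfalso
    have hcd' : d ≠ 0 ∨ c ≠ 0 := by
      by_contra hcon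
      push Not at hcon
      exact hcd ⟨hcon.2, hcon.1⟩
    by_cases hden : ∀ z ∈ I, d * g z + c ≠ 0
    · refine hmob (-b) (-a) d c hcd' (fun z hz => ⟨hden z hz, ?_⟩)
      rw [eq_div_iff (hden z hz)]
      linear_combination hrel z hz
    · push Not at hden
      obtain ⟨z0, hz0, hz0'⟩ := hden
      have hd : d ≠ 0 := by
        rintro rfl
        apply hcd
        constructor
        · linarith
        · rfl
      have hab : a + b * g z0 = 0 := by
        have := hrel z0 hz0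
        linear_combination this - h z0 * hz0'
      have hbc : d * a = b * c := by
        linear_combination d * hab - b * hz0'
      rcases eq_const_of_mul hIo hIp hg hh (α := b) (β := d) (γ := c) (δ := d)
        (fun z hz => by linear_combination d * hrel z hz - hbc) with h1 | h1
      · refine hhc (-b / d) (fun z hz => ?_)
        have := h1 z hz
        field_simp
        linarith
      · refine hgc (-c / d) (fun z hz => ?_)
        have := h1 z hz
        field_simp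
        linarith

/-- Transfer of linear independence to functions with the same germs at `0`. -/
lemma LI_transfer {I J : Set ℝ} (hIp : IsPreconnected I) (h0 : (0 : ℝ) ∈ I)
    (hJ : J ∈ 𝓝 (0 : ℝ))
    {g h g1 h1 : ℝ → ℝ} (hg : AnalyticOnNhd ℝ g I) (hh : AnalyticOnNhd ℝ h I)
    (hLI : ∀ a b c d : ℝ, (∀ z ∈ I, a + b * g z + c * h z + d * (g z * h z) = 0) →
      a = 0 ∧ b = 0 ∧ c = 0 ∧ d = 0)
    (hg1 : ∀ᶠ z in 𝓝 0, g1 z = g z) (hh1 : ∀ᶠ z in 𝓝 0, h1 z = h z) :
    ∀ a b c d : ℝ, (∀ z ∈ J, a + b * g1 z + c * h1 z + d * (g1 z * h1 z) = 0) →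
      a = 0 ∧ b = 0 ∧ c = 0 ∧ d = 0 := by
  intro a b c d hrel
  apply LI_of_eventually hIp hg hh hLI h0
  filter_upwards [hg1, hh1, hJ] with z e1 e2 hz
  rw [← e1, ← e2]
  exact hrel z hz

end Pool.Agent.MP_4d0c5f_nt
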