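import Pool.Agent.MP_4d0c5f_nt.Local

open MeasureTheory Set Filter Topology

namespace Pool.Agent.MP_4d0c5f_nt

/-- weight of one integer coordinate -/
noncomputable def om (n : ℤ) : ℝ := ((1 + |(n : ℝ)|) ^ 2)⁻¹

lemma om_pos (n : ℤ) : 0 < om n := by unfold om; positivity

lemma om_le_one (n : ℤ) : om n ≤ 1 := by
  unfold om
  apply inv_le_one_of_one_le₀
  nlinarith [abs_nonneg (n : ℝ)]

lemma summable_om : Summable om := by
  have h := (Real.summable_one_div_int_add_rpow (1 / 2) 2).mpr (by norm_num)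
  refine Summable.of_nonneg_of_le (fun n => (om_pos n).le) (fun n => ?_) h
  unfold om
  rw [← one_div]
  have hne : (0 : ℝ) < |(n : ℝ) + 1 / 2| := by
    rw [abs_pos]
    intro h0
    have h1 : (2 * n + 1 : ℝ) = 0 := by linarith
    have h2 : (2 * n + 1 : ℤ) = 0 := by exact_mod_cast h1
    omega
  have h2 : |(n : ℝ) + 1 / 2| ^ (2 : ℝ) = |(n : ℝ) + 1 / 2| ^ 2 := by
    norm_cast
  rw [h2]
  apply one_div_le_one_div_of_le (by positivity)
  apply pow_le_pow_left₀ hne.le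
  calc |(n : ℝ) + 1 / 2| ≤ |(n : ℝ)| + |(1 / 2 : ℝ)| := abs_add_le _ _
    _ ≤ 1 + |(n : ℝ)| := by
      rw [abs_of_pos (by norm_num : (0 : ℝ) < 1 / 2)]; linarith

/-- weight of an integer 4-vector -/
noncomputable def omega4 (w : ℤ × ℤ × ℤ × ℤ) : ℝ := om w.1 * (om w.2.1 * (om w.2.2.1 * om w.2.2.2))

lemma omega4_pos (w : ℤ × ℤ × ℤ × ℤ) : 0 < omega4 w := by
  unfold omega4
  have := om_pos w.1
  have := om_pos w.2.1
  have := om_pos w.2.2.1
  have := om_pos w.2.2.2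
  positivity

lemma omega4_le_one (w : ℤ × ℤ × ℤ × ℤ) : omega4 w ≤ 1 := by
  unfold omega4
  have h3 := mul_le_one₀ (om_le_one w.2.2.1) (om_pos w.2.2.2).le (om_le_one w.2.2.2)
  have h3p := mul_pos (om_pos w.2.2.1) (om_pos w.2.2.2)
  have h2 := mul_le_one₀ (om_le_one w.2.1) h3p.le h3
  exact mul_le_one₀ (om_le_one w.1) (mul_pos (om_pos w.2.1) h3p).le h2

lemma summable_omega4 : Summable omega4 := by
  have h0 : (0 : ℤ → ℝ) ≤ om := fun n => (om_pos n).le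
  have h2 := Summable.mul_of_nonneg summable_om summable_om h0 h0
  have h2' : (0 : ℤ × ℤ → ℝ) ≤ fun x => om x.1 * om x.2 :=
    fun x => (mul_pos (om_pos _) (om_pos _)).le
  have h3 := Summable.mul_of_nonneg summable_om h2 h0 h2'
  have h3' : (0 : ℤ × ℤ × ℤ → ℝ) ≤ fun x => om x.1 * (om x.2.1 * om x.2.2) :=
    fun x => (mul_pos (om_pos _) (mul_pos (om_pos _) (om_pos _))).le
  exact Summable.mul_of_nonneg summable_om h3 h0 h3'

/-- the linear combination attached to an integer vector -/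
def comb (G H : ℝ) (w : ℤ × ℤ × ℤ × ℤ) : ℝ :=
  (w.1 : ℝ) + w.2.1 * G + w.2.2.1 * H + w.2.2.2 * (G * H)

lemma one_le_of_ne_zero {w : ℤ × ℤ × ℤ × ℤ} (hw : w ≠ 0) :
    1 ≤ |(w.1 : ℝ)| ∨ 1 ≤ |(w.2.1 : ℝ)| ∨ 1 ≤ |(w.2.2.1 : ℝ)| ∨ 1 ≤ |(w.2.2.2 : ℝ)| := by
  have key : ∀ n : ℤ, n ≠ 0 → 1 ≤ |(n : ℝ)| := by
    intro n hn
    have := Int.one_le_abs hn
    exact_mod_cast this
  by_cases h1 : w.1 = 0
  · by_cases h2 : w.2.1 = 0
    · by_cases h3 : w.2.2.1 = 0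
      · by_cases h4 : w.2.2.2 = 0
        · exfalso; apply hw
          ext <;> simp [h1, h2, h3, h4]
        · exact Or.inr (Or.inr (Or.inr (key _ h4)))
      · exact Or.inr (Or.inr (Or.inl (key _ h3)))
    · exact Or.inr (Or.inl (key _ h2))
  · exact Or.inl (key _ h1)

lemma null_of_bound {S : Set ℝ} {g h : ℝ → ℝ} {C : ℝ}
    (hC : ∀ a b c d : ℝ, (1 ≤ |a| ∨ 1 ≤ |b| ∨ 1 ≤ |c| ∨ 1 ≤ |d|) →
      ∀ ε : ℝ, 0 < ε → ε ≤ 1 / 2 →
        volume {x | x ∈ S ∧ |a + b * g x + c * h x + d * (g x * h x)| < ε ^ 3} ≤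
          ENNReal.ofReal (C * ε)) :
    volume {x | x ∈ S ∧ ∀ τ : ℝ, 0 < τ → ∃ w : ℤ × ℤ × ℤ × ℤ, w ≠ 0 ∧
      |comb (g x) (h x) w| < (τ * omega4 w) ^ 3} = 0 := by
  set B := {x | x ∈ S ∧ ∀ τ : ℝ, 0 < τ → ∃ w : ℤ × ℤ × ℤ × ℤ, w ≠ 0 ∧
      |comb (g x) (h x) w| < (τ * omega4 w) ^ 3} with hB
  set K : ENNReal := ∑' w : ℤ × ℤ × ℤ × ℤ, ENNReal.ofReal (C * omega4 w) with hK
  have hKtop : K ≠ ⊤ := (summable_omega4.mul_left C).tsum_ofReal_ne_top
  have hbound : ∀ n : ℕ, volume B ≤ ENNReal.ofReal (1 / ((n : ℝ) + 2)) * K := by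
    intro n
    set τ : ℝ := 1 / ((n : ℝ) + 2) with hτ
    have hτ0 : 0 < τ := by positivity
    have hτ1 : τ ≤ 1 / 2 := by
      apply one_div_le_one_div_of_le (by norm_num)
      have : (0 : ℝ) ≤ n := Nat.cast_nonneg n
      linarith
    have hsub : B ⊆ ⋃ w : ℤ × ℤ × ℤ × ℤ,
        {x | w ≠ 0 ∧ x ∈ S ∧ |comb (g x) (h x) w| < (τ * omega4 w) ^ 3} := by
      rintro x ⟨hxS, hx⟩
      obtain ⟨w, hw, hlt⟩ := hx τ hτ0
      exact mem_iUnion.mpr ⟨w, hw, hxS, hlt⟩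
    refine (measure_mono hsub).trans ((measure_iUnion_le _).trans ?_)
    rw [hK, ← ENNReal.tsum_mul_left]
    refine ENNReal.tsum_le_tsum (fun w => ?_)
    rw [← ENNReal.ofReal_mul hτ0.le]
    by_cases hw : w = 0
    · have : {x | w ≠ 0 ∧ x ∈ S ∧ |comb (g x) (h x) w| < (τ * omega4 w) ^ 3} = ∅ := by
        ext x; simp [hw]
      rw [this, measure_empty]
      exact bot_le
    · have h1 := hC w.1 w.2.1 w.2.2.1 w.2.2.2 (one_le_of_ne_zero hw) (τ * omega4 w)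
        (mul_pos hτ0 (omega4_pos w))
        ((mul_le_of_le_one_right hτ0.le (omega4_le_one w)).trans hτ1)
      refine (measure_mono ?_).trans (h1.trans (ENNReal.ofReal_le_ofReal ?_))
      · rintro x ⟨_, hxS, hx⟩
        exact ⟨hxS, hx⟩
      · linarith [mul_comm τ (C * omega4 w), mul_assoc C (omega4 w) τ, mul_comm (omega4 w) τ]
  have hlim : Tendsto (fun n : ℕ => ENNReal.ofReal (1 / ((n : ℝ) + 2)) * K) atTop (𝓝 (0 * K)) := by
    refine ENNReal.Tendsto.mul_const ?_ (Or.inr hKtop)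
    rw [← ENNReal.ofReal_zero]
    refine ENNReal.tendsto_ofReal ?_
    have := tendsto_one_div_add_atTop_nhds_zero_nat (𝕜 := ℝ)
    have h2 := this.comp (tendsto_add_atTop_nat 1)
    refine h2.congr (fun n => ?_)
    simp only [Function.comp_apply]
    push_cast
    ring
  rw [zero_mul] at hlim
  exact le_antisymm (ge_of_tendsto' hlim hbound) bot_le

end Pool.Agent.MP_4d0c5f_nt
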