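import Mathlib

open MeasureTheory Set Filter Topology

namespace Pool.Agent.MP_4d0c5f_nt

lemma mul_abs_sub_le {S : Set ℝ} (hS : S.OrdConnected) {F F' : ℝ → ℝ} {κ : ℝ}
    (hF : ∀ x ∈ S, HasDerivAt F (F' x) x) (hF' : ∀ x ∈ S, κ ≤ |F' x|) :
    ∀ x ∈ S, ∀ y ∈ S, κ * |x - y| ≤ |F x - F y| := by
  have key : ∀ x ∈ S, ∀ y ∈ S, x < y → κ * |x - y| ≤ |F x - F y| := by
    intro x hx y hy hxy
    have hsub : Icc x y ⊆ S := hS.out hx hy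
    have hcont : ContinuousOn F (Icc x y) := fun z hz =>
      (hF z (hsub hz)).continuousAt.continuousWithinAt
    obtain ⟨c, hc, hc'⟩ := exists_hasDerivAt_eq_slope F F' hxy hcont
      (fun z hz => hF z (hsub (Ioo_subset_Icc_self hz)))
    have h1 := hF' c (hsub (Ioo_subset_Icc_self hc))
    have hpos : 0 < y - x := sub_pos.mpr hxy
    have h2 : F y - F x = F' c * (y - x) := by
      rw [hc']; field_simp
    have h3 : |F x - F y| = |F' c| * |x - y| := by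
      rw [abs_sub_comm (F x), h2, abs_mul, abs_sub_comm x y]
    rw [h3]
    exact mul_le_mul_of_nonneg_right h1 (abs_nonneg _)
  intro x hx y hy
  rcases lt_trichotomy x y with h | h | h
  · exact key x hx y hy h
  · subst h; simp
  · rw [abs_sub_comm x y, abs_sub_comm (F x)]
    exact key y hy x hx h

lemma split_lemma {S : Set ℝ} (hS : S.OrdConnected) {F F' : ℝ → ℝ} {κ : ℝ} (τ : ℝ) (hκ : 0 < κ)
    (hF : ∀ x ∈ S, HasDerivAt F (F' x) x) (hF' : ∀ x ∈ S, κ ≤ |F' x|) :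
    ∃ L R M : Set ℝ, L.OrdConnected ∧ R.OrdConnected ∧ L ⊆ S ∧ R ⊆ S ∧ S ⊆ L ∪ R ∪ M ∧
      (∀ x ∈ L, τ ≤ |F x|) ∧ (∀ x ∈ R, τ ≤ |F x|) ∧
      volume M ≤ ENNReal.ofReal (2 * τ / κ) := by
  set B : Set ℝ := {x | x ∈ S ∧ |F x| < τ} with hB
  have hBd : ∀ x ∈ B, ∀ y ∈ B, |x - y| ≤ 2 * τ / κ := by
    intro x hx y hy
    have h1 := mul_abs_sub_le hS hF hF' x hx.1 y hy.1
    have h2 : |F x - F y| ≤ 2 * τ := by
      have := abs_sub (F x) (F y)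
      have h3 := hx.2
      have h4 := hy.2
      linarith
    rw [le_div_iff₀ hκ]
    linarith
  refine ⟨{x | x ∈ S ∧ ∀ b ∈ B, x < b}, {x | x ∈ S ∧ ∀ b ∈ B, b < x},
    {x | x ∈ S ∧ (∃ b ∈ B, b ≤ x) ∧ ∃ b ∈ B, x ≤ b}, ?_, ?_, fun x hx => hx.1, fun x hx => hx.1,
    ?_, ?_, ?_, ?_⟩
  · constructor
    intro x hx y hy z hz
    exact ⟨hS.out hx.1 hy.1 hz, fun b hb => lt_of_le_of_lt hz.2 (hy.2 b hb)⟩
  · constructor
    intro x hx y hy z hz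
    exact ⟨hS.out hx.1 hy.1 hz, fun b hb => lt_of_lt_of_le (hx.2 b hb) hz.1⟩
  · intro x hx
    by_cases h1 : ∀ b ∈ B, x < b
    · exact Or.inl (Or.inl ⟨hx, h1⟩)
    · by_cases h2 : ∀ b ∈ B, b < x
      · exact Or.inl (Or.inr ⟨hx, h2⟩)
      · push Not at h1 h2
        exact Or.inr ⟨hx, h1, h2⟩
  · intro x hx
    by_contra hlt
    push Not at hlt
    exact lt_irrefl x (hx.2 x ⟨hx.1, hlt⟩)
  · intro x hx
    by_contra hlt
    push Not at hlt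
    exact lt_irrefl x (hx.2 x ⟨hx.1, hlt⟩)
  · refine (Real.volume_le_diam _).trans ?_
    refine Metric.ediam_le ?_
    rintro x ⟨_, ⟨b1, hb1, hb1x⟩, b2, hb2, hb2x⟩ y ⟨_, ⟨b3, hb3, hb3y⟩, b4, hb4, hb4y⟩
    rw [edist_dist]
    refine ENNReal.ofReal_le_ofReal ?_
    rw [Real.dist_eq, abs_le]
    have h1 := hBd b1 hb1 b4 hb4
    have h2 := hBd b2 hb2 b3 hb3
    rw [abs_le] at h1 h2
    constructor <;> linarith

lemma volume_sublevel_le {S : Set ℝ} (hS : S.OrdConnected) {F F' : ℝ → ℝ} {κ : ℝ} (η : ℝ)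
    (hκ : 0 < κ)
    (hF : ∀ x ∈ S, HasDerivAt F (F' x) x) (hF' : ∀ x ∈ S, κ ≤ |F' x|) :
    volume {x | x ∈ S ∧ |F x| < η} ≤ ENNReal.ofReal (2 * η / κ) := by
  obtain ⟨L, R, M, -, -, -, -, hS', hL, hR, hM⟩ := split_lemma hS η hκ hF hF'
  refine le_trans (measure_mono ?_) hM
  rintro x ⟨hx, hx'⟩
  rcases hS' hx with (h | h) | h
  · exact absurd (hL x h) (not_le.mpr hx')
  · exact absurd (hR x h) (not_le.mpr hx')
  · exact h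

section chain

variable {F0 F1 F2 g' u' y' : ℝ → ℝ} {κ d : ℝ}

lemma chain1 {S : Set ℝ} (hS : S.OrdConnected) (hκ : 0 < κ)
    (h0 : ∀ x ∈ S, HasDerivAt F0 (g' x * F1 x) x)
    (hg : ∀ x ∈ S, κ ≤ |g' x|) {τ1 : ℝ} (hτ : 0 < τ1) (h1 : ∀ x ∈ S, τ1 ≤ |F1 x|) (η : ℝ) :
    volume {x | x ∈ S ∧ |F0 x| < η} ≤ ENNReal.ofReal (2 * η / (κ * τ1)) := by
  refine volume_sublevel_le hS η (by positivity) h0 ?_
  intro x hx
  rw [abs_mul]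
  exact mul_le_mul (hg x hx) (h1 x hx) hτ.le (abs_nonneg _)

lemma chain2 {S : Set ℝ} (hS : S.OrdConnected) (hκ : 0 < κ)
    (h0 : ∀ x ∈ S, HasDerivAt F0 (g' x * F1 x) x)
    (h1 : ∀ x ∈ S, HasDerivAt F1 (u' x * F2 x) x)
    (hg : ∀ x ∈ S, κ ≤ |g' x|) (hu : ∀ x ∈ S, κ ≤ |u' x|)
    {τ1 τ2 : ℝ} (hτ1 : 0 < τ1) (hτ2 : 0 < τ2)
    (h2 : ∀ x ∈ S, τ2 ≤ |F2 x|) (η : ℝ) :
    volume {x | x ∈ S ∧ |F0 x| < η} ≤
      ENNReal.ofReal (2 * τ1 / (κ * τ2)) + 2 * ENNReal.ofReal (2 * η / (κ * τ1)) := by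
  obtain ⟨L, R, M, hLo, hRo, hLS, hRS, hS', hL, hR, hM⟩ :=
    split_lemma hS τ1 (κ := κ * τ2) (by positivity) h1 (by
      intro x hx
      rw [abs_mul]
      exact mul_le_mul (hu x hx) (h2 x hx) hτ2.le (abs_nonneg _))
  have e1 := chain1 hLo hκ (fun x hx => h0 x (hLS hx)) (fun x hx => hg x (hLS hx)) hτ1 hL η
  have e2 := chain1 hRo hκ (fun x hx => h0 x (hRS hx)) (fun x hx => hg x (hRS hx)) hτ1 hR η
  have hsub : {x | x ∈ S ∧ |F0 x| < η} ⊆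
      M ∪ ({x | x ∈ L ∧ |F0 x| < η} ∪ {x | x ∈ R ∧ |F0 x| < η}) := by
    rintro x ⟨hx, hx'⟩
    rcases hS' hx with (h | h) | h
    · exact Or.inr (Or.inl ⟨h, hx'⟩)
    · exact Or.inr (Or.inr ⟨h, hx'⟩)
    · exact Or.inl h
  refine (measure_mono hsub).trans ((measure_union_le _ _).trans ?_)
  refine add_le_add hM ((measure_union_le _ _).trans ?_)
  rw [two_mul]
  exact add_le_add e1 e2

lemma chain3 {S : Set ℝ} (hS : S.OrdConnected) (hκ : 0 < κ)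
    (h0 : ∀ x ∈ S, HasDerivAt F0 (g' x * F1 x) x)
    (h1 : ∀ x ∈ S, HasDerivAt F1 (u' x * F2 x) x)
    (h2 : ∀ x ∈ S, HasDerivAt F2 (y' x * d) x)
    (hg : ∀ x ∈ S, κ ≤ |g' x|) (hu : ∀ x ∈ S, κ ≤ |u' x|) (hy : ∀ x ∈ S, κ ≤ |y' x|)
    {τ1 τ2 τ3 : ℝ} (hτ1 : 0 < τ1) (hτ2 : 0 < τ2) (hτ3 : 0 < τ3)
    (h3 : τ3 ≤ |d|) (η : ℝ) :
    volume {x | x ∈ S ∧ |F0 x| < η} ≤
      ENNReal.ofReal (2 * τ2 / (κ * τ3)) + 2 * (ENNReal.ofReal (2 * τ1 / (κ * τ2)) +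
        2 * ENNReal.ofReal (2 * η / (κ * τ1))) := by
  obtain ⟨L, R, M, hLo, hRo, hLS, hRS, hS', hL, hR, hM⟩ :=
    split_lemma hS τ2 (κ := κ * τ3) (by positivity) h2 (by
      intro x hx
      rw [abs_mul]
      exact mul_le_mul (hy x hx) h3 hτ3.le (abs_nonneg _))
  have e1 := chain2 hLo hκ (fun x hx => h0 x (hLS hx)) (fun x hx => h1 x (hLS hx))
    (fun x hx => hg x (hLS hx)) (fun x hx => hu x (hLS hx)) hτ1 hτ2 hL η
  have e2 := chain2 hRo hκ (fun x hx => h0 x (hRS hx)) (fun x hx => h1 x (hRS hx))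
    (fun x hx => hg x (hRS hx)) (fun x hx => hu x (hRS hx)) hτ1 hτ2 hR η
  have hsub : {x | x ∈ S ∧ |F0 x| < η} ⊆
      M ∪ ({x | x ∈ L ∧ |F0 x| < η} ∪ {x | x ∈ R ∧ |F0 x| < η}) := by
    rintro x ⟨hx, hx'⟩
    rcases hS' hx with (h | h) | h
    · exact Or.inr (Or.inl ⟨h, hx'⟩)
    · exact Or.inr (Or.inr ⟨h, hx'⟩)
    · exact Or.inl h
  refine (measure_mono hsub).trans ((measure_union_le _ _).trans ?_)
  refine add_le_add hM ((measure_union_le _ _).trans ?_)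
  rw [two_mul (ENNReal.ofReal (2 * τ1 / (κ * τ2)) + 2 * ENNReal.ofReal (2 * η / (κ * τ1)))]
  exact add_le_add e1 e2

end chain

end Pool.Agent.MP_4d0c5f_nt
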