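import Pool.Agent.MP_4d0c5f_nt.Defs
import Pool.Agent.MP_4d0c5f_nt.Generic

open Set Filter Topology

namespace Pool.Agent.MP_4d0c5f_nt

/-- sum of the Taylor series at 0 -/
noncomputable def tsumFun (f : ℝ → ℝ) : ℝ → ℝ := fun x => ∑' j, taylorCoeff f j * x ^ j

lemma radius_le {f : ℝ → ℝ} {ρ : ℝ} (hρ : 0 < ρ) (hs : Summable fun j => taylorCoeff f j * ρ ^ j) :
    ENNReal.ofReal ρ ≤ (FormalMultilinearSeries.ofScalars ℝ (taylorCoeff f)).radius := by
  have h1 : Tendsto (fun j => ‖(FormalMultilinearSeries.ofScalars ℝ (taylorCoeff f)) j‖ *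
      ((NNReal.mk ρ hρ.le : NNReal) : ℝ) ^ j) atTop (𝓝 0) := by
    have h2 := hs.tendsto_atTop_zero.norm
    rw [norm_zero] at h2
    refine h2.congr (fun j => ?_)
    rw [FormalMultilinearSeries.ofScalars_norm, norm_mul, norm_pow, Real.norm_of_nonneg hρ.le]
    rfl
  have h3 := FormalMultilinearSeries.le_radius_of_tendsto _ h1
  refine le_trans (le_of_eq ?_) h3
  rw [ENNReal.ofReal_eq_coe_nnreal hρ.le]

lemma tsumFun_hasFPowerSeriesOnBall {f : ℝ → ℝ} {ρ : ℝ} (hρ : 0 < ρ)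
    (hs : Summable fun j => taylorCoeff f j * ρ ^ j) :
    HasFPowerSeriesOnBall (tsumFun f) (FormalMultilinearSeries.ofScalars ℝ (taylorCoeff f)) 0
      (ENNReal.ofReal ρ) := by
  have h1 := radius_le hρ hs
  have hpos : 0 < ENNReal.ofReal ρ := ENNReal.ofReal_pos.mpr hρ
  have h2 := (FormalMultilinearSeries.ofScalars ℝ (taylorCoeff f)).hasFPowerSeriesOnBall
    (lt_of_lt_of_le hpos h1)
  have h3 := h2.mono hpos h1
  convert! h3 using 1
  ext x
  have := congrFun (FormalMultilinearSeries.ofScalarsSum_eq_tsum (E := ℝ) (taylorCoeff f)) x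
  unfold FormalMultilinearSeries.ofScalarsSum at this
  rw [this]
  rfl

lemma eball_eq {ρ : ℝ} : Metric.eball (0 : ℝ) (ENNReal.ofReal ρ) = Ioo (-ρ) ρ := by
  rw [Metric.eball_ofReal, Real.ball_eq_Ioo]
  simp

lemma tsumFun_analytic {f : ℝ → ℝ} {ρ : ℝ} (hρ : 0 < ρ)
    (hs : Summable fun j => taylorCoeff f j * ρ ^ j) : AnalyticOnNhd ℝ (tsumFun f) (Ioo (-ρ) ρ) := by
  have := (tsumFun_hasFPowerSeriesOnBall hρ hs).analyticOnNhd
  rwa [eball_eq] at this

lemma tsumFun_hasSum {f : ℝ → ℝ} {ρ : ℝ} (hρ : 0 < ρ)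
    (hs : Summable fun j => taylorCoeff f j * ρ ^ j) {x : ℝ} (hx : x ∈ Ioo (-ρ) ρ) :
    HasSum (fun j => taylorCoeff f j * x ^ j) (tsumFun f x) := by
  have h1 := (tsumFun_hasFPowerSeriesOnBall hρ hs).hasSum (y := x) (by rwa [eball_eq])
  rw [zero_add] at h1
  convert! h1 using 1
  ext j
  rw [FormalMultilinearSeries.ofScalars_apply_eq, smul_eq_mul]

lemma tsumFun_eventuallyEq {f : ℝ → ℝ} {ρ : ℝ} (hρ : 0 < ρ)
    (hs : Summable fun j => taylorCoeff f j * ρ ^ j) (hf : AnalyticAt ℝ f 0) :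
    ∀ᶠ x in 𝓝 0, tsumFun f x = f x := by
  have h1 := (tsumFun_hasFPowerSeriesOnBall hρ hs).hasFPowerSeriesAt
  have h2 : HasFPowerSeriesAt f (FormalMultilinearSeries.ofScalars ℝ (taylorCoeff f)) 0 :=
    hf.hasFPowerSeriesAt
  have h3 := h1.eventually_hasSum
  have h4 := h2.eventually_hasSum
  filter_upwards [h3, h4] with x hx1 hx2
  have := hx1.unique hx2
  simpa using this

end Pool.Agent.MP_4d0c5f_nt
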